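import Pool.Agent.Lib.PTP.Defs
import Pool.Agent.Lib.NLT.WnWb
import Pool.Agent.Lib.NLT.MsqAll

/-!
# Module SparseOne: mean squares for one-parameter families of type `SpS`

PROOF. `K1 = K (r + 1)`. Constants: `VN.msp_spec K1 B (fun b => F (b + 1))` gives `b0`, `B1`; `NLT.wn_of_wba B1 ε` gives `B'`; `VN.spb_ev (1 / 6) (1 / 6 + ε) le_rfl _ F b0` turns `SpB F (b0 + 1) D T` into
`SpT (fun b => F (b + 1)) b0 x D T` for `x^(1/6 + ε) ≤ D ≤ x`, `x` large (see `blocks` in Results/MP_e87c7d_nt/NonlinearTriples.lean and case 1 of NLT/MsqAll.lean). Given `T`, `σ`, `k` with `SpS (b0 + 1) F ε x T σ k`: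
`T' = T.image (fun t => σ t k) ⊆ range (x + 1)`, `σ t k = t + c`, so `card T' = card T` and `‖WW T' θ‖ = ‖WW T θ‖` (`WW T θ = ∑ t ∈ T, ex (t θ)`); hence `SpT .. T'` and `MSP A K1 B x T'`.
If `T` is empty the claim is trivial. Otherwise fix `t0 ∈ T`; `w' n = w n * ∏_(i ≠ k) G i (n + σ t0 i)` is bounded by `L^K1` on `[1, x]` and for `t ∈ T`
`w n * ∏ G i (n + σ t i) = w' n * ff (zA A x) (n + σ t k)`. (`1 ≤ L^K`: `L ≥ 1` for large `x`.)
-/

set_option autoImplicit false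

open Finset Filter

namespace Pool.Agent.PTP

open Pool.Agent.HLB Pool.Agent.HL Pool.Agent.HLT Pool.Agent.HLU Pool.Agent.VK Pool.Agent.VN Pool.Agent.NLT

namespace SparseOneAux

/-- The exponential sums over a shifted copy of `T`. -/
lemma norm_WW_image {T : Finset ℕ} {f : ℕ → ℕ} {c : ℤ} (hf : ∀ t ∈ T, (f t : ℤ) = t + c) (θ : ℝ) :
    ‖HLT.WW (T.image f) θ‖ = ‖HLT.WW T θ‖ := by
  have hinj : Set.InjOn f T := by
    intro t ht t' ht' h
    have h1 := hf t ht
    have h2 := hf t' ht'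
    rw [h] at h1
    omega
  unfold HLT.WW
  rw [Finset.sum_image hinj]
  have h : ∀ t ∈ T, ex ((f t : ℝ) * θ) = ex (c * θ) * ex (t * θ) := by
    intro t ht
    rw [← ex_add]
    congr 1
    have h1 : (f t : ℝ) = t + c := by exact_mod_cast hf t ht
    rw [h1]
    ring
  rw [Finset.sum_congr rfl h, ← Finset.mul_sum, norm_mul, norm_ex, one_mul]

lemma SpT_image {F : ℕ → ℕ} {b0 x H : ℕ} {T : Finset ℕ} (h : SpT F b0 x H T) {f : ℕ → ℕ} {c : ℤ}
    (hf : ∀ t ∈ T, (f t : ℤ) = t + c) : SpT F b0 x H (T.image f) := by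
  intro b' hb' Θ hΘ hθ
  refine h b' hb' Θ hΘ fun θ hθ' => ?_
  have h1 := hθ θ hθ'
  have hinj : Set.InjOn f T := by
    intro t ht t' ht' h
    have h1 := hf t ht
    have h2 := hf t' ht'
    rw [h] at h1
    omega
  rwa [Finset.card_image_of_injOn hinj, norm_WW_image hf] at h1

lemma one_le_of_log {x : ℕ} (hL : 2 ≤ Real.log x) : (1 : ℝ) ≤ x := by
  rcases Nat.eq_zero_or_pos x with h | h
  · subst h
    simp at hL
    linarith
  · exact_mod_cast h

end SparseOneAux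

open SparseOneAux in
theorem sparse_one (r K B : ℕ) (F : ℕ → ℕ) (ε : ℝ) (hε : 0 < ε) :
    ∃ b₀ B' : ℕ, ∀ A : ℕ, ∀ᶠ x : ℕ in atTop, WBA A B' 1 (ε / 2) x →
    ∀ (T : Finset ℕ) (σ : ℕ → Fin r → ℕ) (k : Fin r), SpS b₀ F ε x T σ k → MSk r A K B x T σ k := by
  classical
  obtain ⟨b0, B1, hmsp⟩ := VN.msp_spec (K * (r + 1)) B (fun b => F (b + 1))
  obtain ⟨B2, hwn⟩ := NLT.wn_of_wba B1 ε hε
  refine ⟨b0 + 1, B2, fun A => ?_⟩
  filter_upwards [hmsp A, hwn A, VN.spb_ev (1 / 6) (1 / 6 + ε) le_rfl (by linarith) F b0,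
    HLU.ev_log 2] with x hmsp hwn hspb hL hWBA T σ k hS
  obtain ⟨D, hD1, hD2, hSp, ⟨c, hc⟩, hconst, hle⟩ := hS
  have hL1 : 1 ≤ Real.log x := by linarith
  have hL0 : 0 < Real.log x := by linarith
  obtain ⟨hD3, hD4⟩ := hspb D hD1 hD2
  have hSpT := SpT_image (hD4 T hSp) hc
  have hinj : Set.InjOn (fun t => σ t k) T := by
    intro t ht t' ht' h
    have h1 := hc t ht
    have h2 := hc t' ht'
    simp only at h
    rw [h] at h1
    omega
  have hsub : T.image (fun t => σ t k) ⊆ range (x + 1) := by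
    intro u hu
    obtain ⟨t, ht, rfl⟩ := Finset.mem_image.mp hu
    exact Finset.mem_range.mpr (Nat.lt_succ_of_le (hle t ht k))
  obtain ⟨-, hM⟩ := hmsp D hD3 hD2 (hwn hWBA D hD1 hD2) (T.image (fun t => σ t k)) hsub hSpT
  intro w G hw hG hGk
  rcases T.eq_empty_or_nonempty with hT | ⟨t0, ht0⟩
  · subst hT
    simp
  set w' : ℕ → ℂ := fun n => w n * ∏ i ∈ univ.erase k, G i (n + σ t0 i) with hw'
  have hbd : ∀ n ∈ Icc 1 x, ‖w' n‖ ≤ Real.log x ^ (K * (r + 1)) := by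
    intro n hn
    have h1 : ‖∏ i ∈ univ.erase k, G i (n + σ t0 i)‖ ≤ (Real.log x ^ K) ^ r := by
      rw [norm_prod]
      have h2 : ∏ i ∈ univ.erase k, ‖G i (n + σ t0 i)‖ ≤ ∏ _i ∈ (univ : Finset (Fin r)).erase k,
          Real.log x ^ K := by
        refine Finset.prod_le_prod (fun i _ => norm_nonneg _) fun i _ => hG i _ ?_
        have h3 := hle t0 ht0 i
        rw [mem_Icc] at hn ⊢
        omega
      refine h2.trans ?_
      rw [Finset.prod_const]
      refine pow_le_pow_right₀ (one_le_pow₀ hL1) ?_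
      refine (Finset.card_le_univ _).trans ?_
      rw [Fintype.card_fin]
    calc ‖w' n‖ = ‖w n‖ * ‖∏ i ∈ univ.erase k, G i (n + σ t0 i)‖ := norm_mul _ _
      _ ≤ Real.log x ^ K * (Real.log x ^ K) ^ r :=
        mul_le_mul (hw n hn) h1 (norm_nonneg _) (by positivity)
      _ = Real.log x ^ (K * (r + 1)) := by ring
  have h2 := hM w' hbd
  rw [Finset.sum_image hinj, Finset.card_image_of_injOn hinj] at h2
  refine le_trans (le_of_eq ?_) h2
  refine Finset.sum_congr rfl fun t ht => ?_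
  congr 2
  refine Finset.sum_congr rfl fun n _ => ?_
  rw [← Finset.mul_prod_erase univ (fun i => G i (n + σ t i)) (Finset.mem_univ k), hGk, hw']
  have h3 : ∏ i ∈ univ.erase k, G i (n + σ t i) = ∏ i ∈ univ.erase k, G i (n + σ t0 i) := by
    refine Finset.prod_congr rfl fun i hi => ?_
    rw [hconst i (Finset.ne_of_mem_erase hi) t ht t0 ht0]
  rw [h3]
  ring

end Pool.Agent.PTP
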