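import Pool.Agent.Lib.PTP.PolyMs

/-!
# Module PolyOne: mean squares for one-parameter families of type `PolyS`

PROOF. For every `e : Fin r → Fin (δ + 1)` whose values are zero or distinct there are `m` and an injective `ι : Fin m → Fin r` with range `{i | 0 < e i}` such that `e ∘ ι` is strictly
increasing (`Finset.orderEmbOfFin` of the image of `{i | 0 < e i}` under `e`, and the inverse of `e` on this set). Let `B' e`, `C e` be the constants of `poly_ms` for `d = e ∘ ι`, `K1 = K (r + 1)`,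
`B1 = B + K`, and take `B' = ∑ e, B' e`, `C = ∑ e, C e` (`NLT.MsqAllAux.WBA_mono`), `Filter.eventually_all`. Now let `PolyS K δ ε x T σ k` hold, with `H`, `d`, polynomials `Q i` (`d i ≤ δ`: `e i = d i`).
Given `w`, `G` as in `MSk`; `w' n = w n * ∏_(i : d i = 0) G i (n + σ 0 i)`, `‖w' n‖ ≤ L^K1` on `[1, x]` (`σ 0 i ≤ x`; `σ t i = σ 0 i` for `t ≤ H` if `d i = 0`, because `Q i` is constant:
`natDegree_eq_zero`). Then for `t ≤ H` `∏_i G i (n + σ t i) = ∏_(d i = 0) .. * ∏_(a : Fin m) G (ι a) (n + (Q (ι a)).eval t)` and `poly_ms` at the slot `a` with `ι a = k` gives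
`∑_(t ∈ range (H + 1)) ‖..‖^2 ≤ (H + 1) x^2 / L^B1`; the sum over the subset `T` is smaller, and `(H + 1) / L^B1 ≤ L^K |T| / L^(B + K) = |T| / L^B`.
-/

set_option autoImplicit false

open Finset Filter Polynomial

namespace Pool.Agent.PTP

open Pool.Agent.HLB Pool.Agent.HL Pool.Agent.HLT Pool.Agent.HLU Pool.Agent.NLT Pool.Agent.NLG

namespace PolyOneAux

lemma WBA_mono {A B B' C C' x : ℕ} {ε : ℝ} (h : WBA A B' C' ε x) (hB : B ≤ B') (hC : C ≤ C')
    (hL : 1 ≤ Real.log x) : WBA A B C ε x := by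
  intro W v h1 h2 α U
  refine (h W v h1 (h2.trans (Nat.mul_le_mul_right _ hC)) α U).trans ?_
  have h0 : 0 < Real.log x := by linarith
  exact div_le_div_of_nonneg_left (by positivity) (pow_pos h0 _) (pow_le_pow_right₀ hL hB)

/-- Sorting the positions of positive degree. -/
lemma sort_pos {r : ℕ} (e : Fin r → ℕ) (he : ∀ i i', i ≠ i' → e i = e i' → e i = 0) :
    ∃ (m : ℕ) (ι : Fin m → Fin r), Function.Injective ι ∧ (∀ a, 0 < e (ι a)) ∧
      (∀ i, 0 < e i → ∃ a, ι a = i) ∧ StrictMono (fun a => e (ι a)) := by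
  classical
  obtain ⟨I, hI⟩ : ∃ I : Finset ℕ, I = (univ.filter (fun i => 0 < e i)).image e := ⟨_, rfl⟩
  have hI' : ∀ y, y ∈ I ↔ ∃ i, 0 < e i ∧ e i = y := by
    intro y
    rw [hI]
    simp
  have h1 : ∀ a : Fin I.card, ∃ i : Fin r, 0 < e i ∧ e i = I.orderEmbOfFin rfl a := by
    intro a
    exact (hI' _).mp (Finset.orderEmbOfFin_mem I rfl a)
  choose ι hι1 hι2 using h1
  have hm : StrictMono (fun a => e (ι a)) := by
    intro a b hab
    simp only [hι2]
    exact (I.orderEmbOfFin rfl).strictMono hab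
  refine ⟨I.card, ι, fun a b hab => hm.injective (by simp only [hab]), hι1, fun i hi => ?_, hm⟩
  have h3 : e i ∈ I := (hI' _).mpr ⟨i, hi, rfl⟩
  have h4 : e i ∈ Set.range (I.orderEmbOfFin rfl) := by
    rw [Finset.range_orderEmbOfFin]
    exact h3
  obtain ⟨a, ha⟩ := h4
  refine ⟨a, ?_⟩
  by_contra hne
  have h5 := he i (ι a) (Ne.symm hne) (by rw [hι2, ha])
  omega

lemma norm_prod_le {r x K : ℕ} (s : Finset (Fin r)) (G : Fin r → ℕ → ℂ) (σ : Fin r → ℕ) (hL : 1 ≤ Real.log x)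
    (hG : ∀ i, ∀ n ∈ Icc 1 (2 * x), ‖G i n‖ ≤ Real.log x ^ K) (hσ : ∀ i, σ i ≤ x) {n : ℕ} (hn : n ∈ Icc 1 x) :
    ‖∏ i ∈ s, G i (n + σ i)‖ ≤ Real.log x ^ (K * r) := by
  have h1 : ‖∏ i ∈ s, G i (n + σ i)‖ ≤ (Real.log x ^ K) ^ s.card := by
    rw [norm_prod, ← Finset.prod_const]
    refine Finset.prod_le_prod (fun i _ => norm_nonneg _) (fun i _ => ?_)
    apply hG
    have h2 := hσ i
    rw [mem_Icc] at hn ⊢
    omega
  refine h1.trans ?_
  rw [← pow_mul]
  refine pow_le_pow_right₀ hL (Nat.mul_le_mul_left _ ?_)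
  exact (Finset.card_le_univ s).trans (by simp)

/-- The product over all positions. -/
lemma split {r m H : ℕ} {e : Fin r → ℕ} {ι : Fin m → Fin r} (hinj : Function.Injective ι)
    (hpos : ∀ a, 0 < e (ι a)) (hsurj : ∀ i, 0 < e i → ∃ a, ι a = i) {Q : Fin r → ℤ[X]}
    (hdeg : ∀ i, (Q i).natDegree = e i) {σ : ℕ → Fin r → ℕ}
    (hev : ∀ i, ∀ t : ℕ, t ≤ H → (σ t i : ℤ) = (Q i).eval (t : ℤ)) (G : Fin r → ℕ → ℂ) (n t : ℕ) (ht : t ≤ H) :
    ∏ i, G i (n + σ t i) = (∏ i ∈ univ.filter (fun i => e i = 0), G i (n + σ 0 i)) *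
      ∏ a, G (ι a) (n + ((Q (ι a)).eval (t : ℤ)).toNat) := by
  classical
  rw [← Finset.prod_filter_mul_prod_filter_not univ (fun i => e i = 0)]
  congr 1
  · refine Finset.prod_congr rfl fun i hi => ?_
    have h1 : e i = 0 := (Finset.mem_filter.mp hi).2
    have h2 : (Q i).natDegree = 0 := by rw [hdeg, h1]
    have h3 := Polynomial.eq_C_of_natDegree_eq_zero h2
    have h4 : (σ t i : ℤ) = (σ 0 i : ℤ) := by
      rw [hev i t ht, hev i 0 (Nat.zero_le _), h3, Polynomial.eval_C, Polynomial.eval_C]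
    have h5 : σ t i = σ 0 i := by exact_mod_cast h4
    rw [h5]
  · have h1 : univ.filter (fun i => ¬ e i = 0) = univ.image ι := by
      ext i
      simp only [Finset.mem_filter, Finset.mem_univ, true_and, Finset.mem_image]
      constructor
      · intro h
        exact hsurj i (Nat.pos_of_ne_zero h)
      · rintro ⟨a, rfl⟩
        exact (hpos a).ne'
    rw [h1, Finset.prod_image (fun a _ b _ h => hinj h)]
    refine Finset.prod_congr rfl fun a _ => ?_
    rw [← hev (ι a) t ht, Int.toNat_natCast]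

/-- The claim for a given tuple of degrees. -/
lemma one_e (hG : ∀ m, GenA m) (r K B : ℕ) (ε : ℝ) (hε : 0 < ε) (e : Fin r → ℕ) :
    ∃ B' C : ℕ, ∀ A : ℕ, ∀ᶠ x : ℕ in atTop, WBA A B' C (ε / 2) x →
    ∀ (T : Finset ℕ) (σ : ℕ → Fin r → ℕ) (k : Fin r) (H : ℕ), T ⊆ range (H + 1) →
      (H : ℝ) + 1 ≤ Real.log x ^ K * T.card → 0 < e k →
      (∀ i i', i ≠ i' → e i = e i' → e i = 0) →
      (∀ i, 0 < e i → (x : ℝ) ^ (1 / 6 + ε) ≤ (H : ℝ) ^ e i ∧ H ^ e i ≤ x) →
      (∀ i, IsP (e i) H (Real.log x ^ K) (fun t => σ t i) ∧ ∀ t : ℕ, t ≤ H → σ t i ≤ x) →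
      MSk r A K B x T σ k := by
  classical
  by_cases he : ∀ i i', i ≠ i' → e i = e i' → e i = 0
  swap
  · exact ⟨0, 0, fun A => Filter.Eventually.of_forall fun x _ T σ k H _ _ _ h => absurd h he⟩
  obtain ⟨m, ι, hinj, hpos, hsurj, hmono⟩ := sort_pos e he
  obtain ⟨B', C, hp⟩ := poly_ms (hG m) (fun a => e (ι a)) hmono (fun a => hpos a) (K * (r + 1)) (B + K) ε hε
  refine ⟨B', C, fun A => ?_⟩
  filter_upwards [hp A, ev_log 1] with x hp hL hW T σ k H hT hcard hk _ hH hσ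
  have hL0 : 0 < Real.log x := by linarith
  choose Q hQd hQc hQe using fun i => (hσ i).1
  obtain ⟨a0, ha0⟩ := hsurj k hk
  have hKr : Real.log x ^ K ≤ Real.log x ^ (K * (r + 1)) :=
    pow_le_pow_right₀ hL (Nat.le_mul_of_pos_right _ (Nat.succ_pos r))
  have h1 := hp hW H (fun a => hH (ι a) (hpos a)) (fun a => Q (ι a)) (fun a => hQd (ι a))
    (fun a l hl => (hQc (ι a) l hl).trans (mul_le_mul_of_nonneg_right hKr (by positivity)))
    (fun a t ht => by
      have h2 := hQe (ι a) t ht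
      have h3 := (hσ (ι a)).2 t ht
      rw [← h2]
      exact ⟨by positivity, by exact_mod_cast h3⟩) a0
  intro w G hw hGb hGk
  have h2 := h1 (fun n => w n * ∏ i ∈ univ.filter (fun i => e i = 0), G i (n + σ 0 i)) (fun a => G (ι a))
    (fun n hn => by
      rw [norm_mul]
      have h3 := norm_prod_le (univ.filter (fun i => e i = 0)) G (σ 0) hL hGb
        (fun i => (hσ i).2 0 (Nat.zero_le _)) hn
      calc ‖w n‖ * ‖∏ i ∈ univ.filter (fun i => e i = 0), G i (n + σ 0 i)‖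
          ≤ Real.log x ^ K * Real.log x ^ (K * r) :=
            mul_le_mul (hw n hn) h3 (norm_nonneg _) (by positivity)
        _ = Real.log x ^ (K * (r + 1)) := by rw [← pow_add, mul_add, mul_one, add_comm])
    (fun a n hn => (hGb (ι a) n hn).trans hKr)
    (fun n => by rw [ha0]; exact hGk n)
  have h3 : ∑ t ∈ T, ‖∑ n ∈ Icc 1 x, w n * ∏ i, G i (n + σ t i)‖ ^ 2 ≤
      ∑ t ∈ range (H + 1), ‖∑ n ∈ Icc 1 x, (w n * ∏ i ∈ univ.filter (fun i => e i = 0), G i (n + σ 0 i)) *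
        ∏ a, G (ι a) (n + ((Q (ι a)).eval (t : ℤ)).toNat)‖ ^ 2 := by
    refine le_trans (le_of_eq ?_) (Finset.sum_le_sum_of_subset_of_nonneg hT (fun _ _ _ => by positivity))
    refine Finset.sum_congr rfl fun t ht => ?_
    have ht1 : t ≤ H := by
      have h4 := Finset.mem_range.mp (hT ht)
      omega
    congr 2
    refine Finset.sum_congr rfl fun n _ => ?_
    rw [split hinj hpos hsurj hQd hQe G n t ht1, mul_assoc]
  refine (h3.trans h2).trans ?_
  rw [Finset.card_range, pow_add, Nat.cast_add, Nat.cast_one]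
  have h5 : ((H : ℝ) + 1) * ((x : ℝ) ^ 2 / (Real.log x ^ B * Real.log x ^ K)) ≤
      (Real.log x ^ K * T.card) * ((x : ℝ) ^ 2 / (Real.log x ^ B * Real.log x ^ K)) :=
    mul_le_mul_of_nonneg_right hcard (by positivity)
  refine h5.trans (le_of_eq ?_)
  field_simp

end PolyOneAux

theorem poly_one (hG : ∀ m, GenA m) (r δ K B : ℕ) (ε : ℝ) (hε : 0 < ε) :
    ∃ B' C : ℕ, ∀ A : ℕ, ∀ᶠ x : ℕ in atTop, WBA A B' C (ε / 2) x →
    ∀ (T : Finset ℕ) (σ : ℕ → Fin r → ℕ) (k : Fin r), PolyS K δ ε x T σ k → MSk r A K B x T σ k := by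
  classical
  have key := fun e : Fin r → Fin (δ + 1) => PolyOneAux.one_e hG r K B ε hε (fun i => (e i : ℕ))
  choose B' C h using key
  refine ⟨∑ e, B' e, ∑ e, C e, fun A => ?_⟩
  have h2 := Filter.eventually_all.mpr (fun e => h e A)
  filter_upwards [h2, ev_log 1] with x h2 hL hW T σ k hP
  obtain ⟨H, d, h3, h4, h5, h6, h7, h8, h9⟩ := hP
  have hW' := PolyOneAux.WBA_mono hW
    (Finset.single_le_sum (f := B') (fun _ _ => Nat.zero_le _)
      (Finset.mem_univ (fun i => (⟨d i, Nat.lt_succ_of_le (h6 i)⟩ : Fin (δ + 1)))))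
    (Finset.single_le_sum (f := C) (fun _ _ => Nat.zero_le _)
      (Finset.mem_univ (fun i => (⟨d i, Nat.lt_succ_of_le (h6 i)⟩ : Fin (δ + 1))))) hL
  exact h2 _ hW' T σ k H h3 h4 h5 h7 h8 h9

end Pool.Agent.PTP
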