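import Pool.Agent.Lib.PTP.PmsG
import Pool.Agent.Lib.NLT.PairMs

/-!
# Module PolyMs: mean squares for the primes, polynomials of increasing degrees

PROOF: copy of NLT/PairMs.lean (`pair_ms`). `L = log x`, `D = 1 + ∑ j, d j`, `X = 2^D x`, `C` from `pms_gen hG d`, `R = ⌈L^k⌉₊` with `k = K (m + 3) 2 + B + 2 D + 10`-like
(`L^k ≤ R ≤ L^(k + 1)`), `R^C ≤ x^(ε / 2)` and `R ^ C ≤ H + 1` for large `x`: here `H^(d k) ≥ x^(1/6)`, `d k ≤ D`, so `H ≥ x^(1/(6 D))`, which exceeds `R^C ≤ L^((k + 1) C)` for large `x`.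
Apply `pms_gen` with `H + 1` in place of `H`: `(H + 1)^(d j) ≤ 2^(d j) H^(d j) ≤ X`. `u j = ((Q j).coeff 0).toNat ∈ [0, x]` (`t = 0`), `P j = Q j - C ((Q j).coeff 0)`;
`Fam m d R (H + 1) P`: `natDegree` unchanged (`natDegree_sub_C`), coefficients: `|coeff l| H^l ≤ L^K H^(d j)` gives for `1 ≤ l ≤ d j` `|coeff l| ≤ L^K H^(d j - l) ≤ R (H + 1)^(d j - l)`
(`H ≥ 1`), for `l > d j` it is `0`. `w' = cw x (L^K) w`, `g i = ` the complex version of `PairMsAux.cg`: `n ↦ G i (n + u i).toNat / D_i` for `1 ≤ n + u i ≤ 2 x`, else 0, with `D_i = L^K` for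
`i ≠ k` and `D_k = L^2` (so that `g k = EZ A x (u k)`; `|ff| ≤ L^2` as in `pair_ms`). `∑ n ∈ Ioc 0 X, w' n * ∏ g i (n + P_i(t)) = (∑ n ∈ Icc 1 x, w n * ∏ G i (n + Q_i(t))) / (L^K ∏ D_i)` for `t ≤ H`
(arguments in `[1, 2 x]`: `0 ≤ Q_i(t) ≤ x`). Window bounds as in `PairMsAux.win`: `WBA A B' C' (ε / 2) x` with `C' = 2^D`, `B' = (k + 1) C`. End as in `fin_step`: `L^K ∏ D_i ≤ L^(K (m + 1) + 2)`.
`MSk` at slot `k`: `G k n = ff (zA A x) n` for all `n`.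
-/

set_option autoImplicit false

open Finset Filter Polynomial

namespace Pool.Agent.PTP

open Pool.Agent.HLB Pool.Agent.HL Pool.Agent.HLT Pool.Agent.HLU Pool.Agent.NLT Pool.Agent.NLG

namespace PolyMsAux

open PairMsAux

/-- A complex function, shifted, normalised and cut off. -/
noncomputable def cgc (x u : ℕ) (D : ℝ) (G : ℕ → ℂ) : ℤ → ℂ :=
  fun n => if 1 ≤ n + u ∧ n + u ≤ 2 * (x : ℤ) then G (n + u).toNat / (D : ℂ) else 0

lemma bd_cgc {x u : ℕ} {D : ℝ} {G : ℕ → ℂ} (hD : 0 < D) (hG : ∀ n ∈ Icc 1 (2 * x), ‖G n‖ ≤ D) :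
    Bd (cgc x u D G) := by
  intro n
  unfold cgc
  split_ifs with h
  · rw [norm_div, Complex.norm_real, Real.norm_of_nonneg hD.le, div_le_one hD]
    apply hG
    rw [mem_Icc]
    omega
  · rw [norm_zero]
    exact zero_le_one

lemma cgc_zero {x u X : ℕ} {D : ℝ} {G : ℕ → ℂ} (hu : u ≤ x) (hX : x ≤ X) (n : ℤ)
    (hn : 3 * (X : ℤ) < |n|) : cgc x u D G n = 0 := by
  unfold cgc
  rw [if_neg]
  intro h
  rcases abs_cases n with ⟨h1, h2⟩ | ⟨h1, h2⟩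
  · rw [h1] at hn
    omega
  · rw [h1] at hn
    omega

lemma EZ_eq' {A x v : ℕ} {G : ℕ → ℂ} (hG : ∀ n, G n = (ff (zA A x) n : ℂ)) :
    cgc x v (Real.log x ^ 2) G = EZ A x v := by
  funext n
  unfold cgc EZ
  split_ifs with h
  · rw [hG]
    push_cast
    rfl
  · rfl

lemma cw_zero' {x X : ℕ} {D : ℝ} {w : ℕ → ℂ} (hX : x ≤ X) (n : ℤ) (hn : ¬ (0 < n ∧ n ≤ (X : ℤ))) :
    PairMsAux.cw x D w n = 0 := by
  unfold PairMsAux.cw
  rw [if_neg]
  intro h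
  apply hn
  omega

lemma sum_idm {m x X : ℕ} {D : ℝ} {w : ℕ → ℂ} {G : Fin m → ℕ → ℂ} {E : Fin m → ℝ} {u : Fin m → ℕ}
    {α : Fin m → ℤ} (hX : x ≤ X) (hα : ∀ i, 0 ≤ α i + u i ∧ α i + u i ≤ x) :
    ∑ n ∈ Ioc (0 : ℤ) (X : ℤ), PairMsAux.cw x D w n * ∏ i, cgc x (u i) (E i) (G i) (n + α i) =
      (∑ n ∈ Icc 1 x, w n * ∏ i, G i (n + (α i + u i).toNat)) / ((D * ∏ i, E i : ℝ) : ℂ) := by
  rw [Finset.sum_div]
  symm
  apply Finset.sum_of_injOn (fun n : ℕ => (n : ℤ))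
  · intro a _ b _ hab
    exact Nat.cast_injective (R := ℤ) hab
  · intro n hn
    rw [Finset.mem_coe, mem_Icc] at hn
    rw [Finset.mem_coe, mem_Ioc]
    dsimp only
    omega
  · intro n _ hn
    have h : PairMsAux.cw x D w n = 0 := by
      unfold PairMsAux.cw
      rw [if_neg]
      rintro ⟨h1, h2⟩
      apply hn
      refine ⟨n.toNat, ?_, ?_⟩
      · rw [Finset.mem_coe, mem_Icc]
        omega
      · show ((n.toNat : ℕ) : ℤ) = n
        omega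
    rw [h, zero_mul]
  · intro n hn
    rw [mem_Icc] at hn
    have h1 : PairMsAux.cw x D w (n : ℤ) = w n / (D : ℂ) := by
      unfold PairMsAux.cw
      rw [if_pos (by omega), Int.toNat_natCast]
    have h2 : ∀ i, cgc x (u i) (E i) (G i) ((n : ℤ) + α i) = G i (n + (α i + u i).toNat) / (E i : ℂ) := by
      intro i
      have hi := hα i
      unfold cgc
      rw [if_pos (by omega)]
      have e : ((n : ℤ) + α i + u i).toNat = n + (α i + u i).toNat := by omega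
      rw [e]
    rw [h1]
    simp only [h2]
    rw [Finset.prod_div_distrib]
    push_cast
    rw [div_mul_div_comm]

lemma fin_stepm {H x K B R m D : ℕ} {L N : ℝ} (hL : 2 ≤ L) (hN0 : 0 < N) (hN : N ≤ L ^ (K + (K + 2) * m))
    (hR : L ^ (2 * K + 2 * (K + 2) * m + 2 * D + B + 1) ≤ R) (S : ℕ → ℂ)
    (h : ∑ t ∈ range (H + 1), ‖S t / (N : ℂ)‖ ^ 2 ≤
      ((H + 1 : ℕ) : ℝ) * ((2 ^ D * x : ℕ) : ℝ) ^ 2 / R) :
    ∑ t ∈ range (H + 1), ‖S t‖ ^ 2 ≤ ((H + 1 : ℕ) : ℝ) * ((x : ℝ) ^ 2 / L ^ B) := by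
  have hL0 : 0 < L := by linarith
  have hL1 : 1 ≤ L := by linarith
  have hR0 : (0 : ℝ) < R := lt_of_lt_of_le (by positivity) hR
  have h1 : ∑ t ∈ range (H + 1), ‖S t / (N : ℂ)‖ ^ 2 = (∑ t ∈ range (H + 1), ‖S t‖ ^ 2) / N ^ 2 := by
    rw [Finset.sum_div]
    refine Finset.sum_congr rfl fun t _ => ?_
    rw [norm_div, Complex.norm_real, Real.norm_of_nonneg hN0.le, div_pow]
  rw [h1, div_le_iff₀ (by positivity)] at h
  refine h.trans ?_
  have h2 : ((H + 1 : ℕ) : ℝ) * ((2 ^ D * x : ℕ) : ℝ) ^ 2 / R * N ^ 2 ≤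
      ((H + 1 : ℕ) : ℝ) * ((2 ^ D * x : ℕ) : ℝ) ^ 2 / L ^ (2 * K + 2 * (K + 2) * m + 2 * D + B + 1) *
        (L ^ (K + (K + 2) * m)) ^ 2 := by
    apply mul_le_mul _ (pow_le_pow_left₀ hN0.le hN 2) (by positivity) (by positivity)
    exact div_le_div_of_nonneg_left (by positivity) (by positivity) hR
  refine h2.trans ?_
  have h3 : ((2 : ℝ) ^ D) ^ 2 ≤ L ^ (2 * D) := by
    rw [← pow_mul, mul_comm D 2]
    exact pow_le_pow_left₀ (by norm_num) hL _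
  have e1 : ((H + 1 : ℕ) : ℝ) * ((2 ^ D * x : ℕ) : ℝ) ^ 2 / L ^ (2 * K + 2 * (K + 2) * m + 2 * D + B + 1) *
        (L ^ (K + (K + 2) * m)) ^ 2 =
      ((H + 1 : ℕ) : ℝ) * ((x : ℝ) ^ 2 / L ^ B) * (((2 : ℝ) ^ D) ^ 2 / L ^ (2 * D)) * (1 / L) := by
    have hn : L ≠ 0 := hL0.ne'
    have e2 : L ^ (2 * K + 2 * (K + 2) * m + 2 * D + B + 1) =
        (L ^ (K + (K + 2) * m)) ^ 2 * L ^ (2 * D) * L ^ B * L := by
      rw [← pow_mul, ← pow_add, ← pow_add, ← pow_succ]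
      congr 1
      ring
    rw [e2]
    push_cast
    field_simp
  rw [e1]
  have h4 : ((2 : ℝ) ^ D) ^ 2 / L ^ (2 * D) ≤ 1 := by
    rw [div_le_one (by positivity)]
    exact h3
  have h5 : 1 / L ≤ 1 := by
    rw [div_le_one hL0]
    exact hL1
  have h6 : 0 ≤ ((H + 1 : ℕ) : ℝ) * ((x : ℝ) ^ 2 / L ^ B) := by positivity
  calc ((H + 1 : ℕ) : ℝ) * ((x : ℝ) ^ 2 / L ^ B) * (((2 : ℝ) ^ D) ^ 2 / L ^ (2 * D)) * (1 / L) ≤
        ((H + 1 : ℕ) : ℝ) * ((x : ℝ) ^ 2 / L ^ B) * 1 * 1 :=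
        mul_le_mul (mul_le_mul_of_nonneg_left h4 h6) h5 (by positivity) (by positivity)
    _ = ((H + 1 : ℕ) : ℝ) * ((x : ℝ) ^ 2 / L ^ B) := by ring

lemma winm {A B' D x v C H R e : ℕ} {ε : ℝ} (hWBA : WBA A B' (2 ^ D) (ε / 2) x)
    (hL : 2 ≤ Real.log x) (hR0 : 0 < R) (hRC : (R : ℝ) ^ C ≤ Real.log x ^ B')
    (hRx : (R : ℝ) ^ C ≤ (x : ℝ) ^ (ε / 2)) (hx : 1 ≤ x)
    (hH : (x : ℝ) ^ (1 / 6 + ε) ≤ (H : ℝ) ^ e) (hH2 : (H + 1) ^ e ≤ 2 ^ D * x) :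
    ∀ W : ℕ, (H + 1) ^ e ≤ R ^ C * W → W ≤ (H + 1) ^ e →
      WB (EZ A x v) W (((2 ^ D * x : ℕ) : ℝ) * W ^ 2 / (R : ℝ) ^ C) := by
  intro W h1 h2 α U
  have hx0 : (0 : ℝ) < x := by exact_mod_cast hx
  have hR0' : (0 : ℝ) < R := by exact_mod_cast hR0
  have hL0 : 0 < Real.log x := by linarith
  have h3 : (x : ℝ) ^ (1 / 6 + ε / 2) ≤ W := by
    have h4 : (x : ℝ) ^ (1 / 6 + ε) = (x : ℝ) ^ (1 / 6 + ε / 2) * (x : ℝ) ^ (ε / 2) := by
      rw [← Real.rpow_add hx0]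
      congr 1
      ring
    have h5 : (((H + 1) ^ e : ℕ) : ℝ) ≤ (R : ℝ) ^ C * W := by
      exact_mod_cast h1
    have h6 : (R : ℝ) ^ C * W ≤ (x : ℝ) ^ (ε / 2) * W :=
      mul_le_mul_of_nonneg_right hRx (Nat.cast_nonneg _)
    have h7 : (H : ℝ) ^ e ≤ (((H + 1) ^ e : ℕ) : ℝ) := by
      push_cast
      exact pow_le_pow_left₀ (Nat.cast_nonneg _) (by linarith) _
    have h8 : 0 < (x : ℝ) ^ (ε / 2) := Real.rpow_pos_of_pos hx0 _
    have h9 : (x : ℝ) ^ (1 / 6 + ε / 2) * (x : ℝ) ^ (ε / 2) ≤ (W : ℝ) * (x : ℝ) ^ (ε / 2) := by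
      rw [← h4]
      linarith
    exact le_of_mul_le_mul_right h9 h8
  refine (hWBA W v h3 (h2.trans hH2) α U).trans ?_
  have h5 : (x : ℝ) * W ^ 2 / Real.log x ^ B' ≤ (x : ℝ) * W ^ 2 / (R : ℝ) ^ C :=
    div_le_div_of_nonneg_left (by positivity) (by positivity) hRC
  refine h5.trans ?_
  apply div_le_div_of_nonneg_right _ (by positivity)
  apply mul_le_mul_of_nonneg_right _ (by positivity)
  have h10 : x ≤ 2 ^ D * x := Nat.le_mul_of_pos_left _ (by positivity)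
  exact_mod_cast h10

end PolyMsAux

open PairMsAux PolyMsAux in
theorem poly_ms {m : ℕ} (hG : GenA m) (d : Fin m → ℕ) (hd : StrictMono d) (hd1 : ∀ j, 1 ≤ d j) (K B : ℕ) (ε : ℝ)
    (hε : 0 < ε) : ∃ B' C : ℕ, ∀ A : ℕ, ∀ᶠ x : ℕ in atTop, WBA A B' C (ε / 2) x →
    ∀ H : ℕ, (∀ j, (x : ℝ) ^ (1 / 6 + ε) ≤ (H : ℝ) ^ d j ∧ H ^ d j ≤ x) →
    ∀ Q : Fin m → ℤ[X], (∀ j, (Q j).natDegree = d j) →
    (∀ j, ∀ l : ℕ, 1 ≤ l → |((Q j).coeff l : ℝ)| * (H : ℝ) ^ l ≤ Real.log x ^ K * (H : ℝ) ^ d j) →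
    (∀ j, ∀ t : ℕ, t ≤ H → 0 ≤ (Q j).eval (t : ℤ) ∧ (Q j).eval (t : ℤ) ≤ x) →
    ∀ k : Fin m, MSk m A K B x (range (H + 1)) (fun t j => ((Q j).eval (t : ℤ)).toNat) k := by
  classical
  obtain ⟨C, hC1, hC⟩ := pms_gen hG d hd hd1
  obtain ⟨D, hD⟩ : ∃ D, D = ∑ j, d j := ⟨_, rfl⟩
  have hdD : ∀ j, d j ≤ D := by
    intro j
    rw [hD]
    exact Finset.single_le_sum (fun i _ => Nat.zero_le (d i)) (Finset.mem_univ j)
  obtain ⟨κ, hκ⟩ : ∃ κ, κ = 2 * K + 2 * (K + 2) * m + 2 * D + B + 1 := ⟨_, rfl⟩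
  refine ⟨(κ + 1) * C, 2 ^ D, fun A => ?_⟩
  filter_upwards [DZ_inv_le A, ev_log 2, eventually_ge_atTop 1,
    ev_rpow ((κ + 1) * C) (show (0 : ℝ) < ε / 2 by linarith),
    ev_rpow ((κ + 1) * C * D) (show (0 : ℝ) < 1 / 6 by norm_num)] with
    x hDZ hL hx hpow hpow2 hWBA H hH Q hQd hQc hQv k w G hw hGb hGk
  have hx0 : (0 : ℝ) < x := by exact_mod_cast hx
  have hx1 : (1 : ℝ) ≤ x := by exact_mod_cast hx
  have hL0 : 0 < Real.log x := by linarith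
  have hL1 : 1 ≤ Real.log x := by linarith
  set L : ℝ := Real.log x with hLdef
  set R : ℕ := ⌈L ^ κ⌉₊ with hRdef
  have hR1 : L ^ κ ≤ R := Nat.le_ceil _
  have hκ1 : 1 ≤ κ := by omega
  have hLk : (2 : ℝ) ≤ L ^ κ := by
    calc (2 : ℝ) ≤ L := hL
      _ = L ^ 1 := (pow_one L).symm
      _ ≤ L ^ κ := pow_le_pow_right₀ hL1 hκ1
  have hR2 : (R : ℝ) ≤ L ^ (κ + 1) := by
    have h1 : (R : ℝ) < L ^ κ + 1 := Nat.ceil_lt_add_one (by positivity)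
    have h2 : L ^ (κ + 1) = L ^ κ * L := pow_succ _ _
    rw [h2]
    nlinarith
  have hRge : 2 ≤ R := by
    have h1 : (2 : ℝ) ≤ R := hLk.trans hR1
    exact_mod_cast h1
  have hR0 : 0 < R := by omega
  have hRr : (1 : ℝ) ≤ R := by
    have : (2 : ℝ) ≤ R := by exact_mod_cast hRge
    linarith
  have hRC : (R : ℝ) ^ C ≤ L ^ ((κ + 1) * C) := by
    calc (R : ℝ) ^ C ≤ (L ^ (κ + 1)) ^ C := pow_le_pow_left₀ (by linarith) hR2 _
      _ = L ^ ((κ + 1) * C) := (pow_mul _ _ _).symm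
  have hRx : (R : ℝ) ^ C ≤ (x : ℝ) ^ (ε / 2) := hRC.trans hpow
  -- size of `H`
  have hRH : R ^ C ≤ H := by
    have hdk : d k ≠ 0 := by
      have := hd1 k
      omega
    have h1 : ((R : ℝ) ^ C) ^ d k ≤ (H : ℝ) ^ d k := by
      calc ((R : ℝ) ^ C) ^ d k ≤ (L ^ ((κ + 1) * C)) ^ d k := pow_le_pow_left₀ (by positivity) hRC _
        _ ≤ (L ^ ((κ + 1) * C)) ^ D := pow_le_pow_right₀ (one_le_pow₀ hL1) (hdD k)
        _ = L ^ ((κ + 1) * C * D) := (pow_mul _ _ _).symm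
        _ ≤ (x : ℝ) ^ (1 / 6 : ℝ) := hpow2
        _ ≤ (x : ℝ) ^ (1 / 6 + ε) := Real.rpow_le_rpow_of_exponent_le hx1 (by linarith)
        _ ≤ (H : ℝ) ^ d k := (hH k).1
    have h2 : (R : ℝ) ^ C ≤ H := (pow_le_pow_iff_left₀ (by positivity) (Nat.cast_nonneg _) hdk).mp h1
    exact_mod_cast h2
  have hH1 : 1 ≤ H := le_trans (Nat.one_le_pow _ _ hR0) hRH
  have hHX : ∀ j, (H + 1) ^ d j ≤ 2 ^ D * x := by
    intro j
    calc (H + 1) ^ d j ≤ (2 * H) ^ d j := Nat.pow_le_pow_left (by omega) _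
      _ = 2 ^ d j * H ^ d j := mul_pow _ _ _
      _ ≤ 2 ^ D * x := Nat.mul_le_mul (Nat.pow_le_pow_right (by norm_num) (hdD j)) (hH j).2
  have hxX : x ≤ 2 ^ D * x := Nat.le_mul_of_pos_left _ (by positivity)
  -- constant coefficients
  have hc0 : ∀ j, 0 ≤ (Q j).coeff 0 ∧ (Q j).coeff 0 ≤ x := by
    intro j
    have h1 := hQv j 0 (Nat.zero_le _)
    rw [Nat.cast_zero, ← Polynomial.coeff_zero_eq_eval_zero] at h1
    exact h1
  have hux : ∀ j, ((Q j).coeff 0).toNat ≤ x := by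
    intro j
    have := hc0 j
    omega
  -- the family
  have hFam : Fam m d R (H + 1) (fun j => Q j - Polynomial.C ((Q j).coeff 0)) := by
    refine ⟨fun j => by rw [Polynomial.natDegree_sub_C, hQd], fun j l hl => ?_⟩
    have e1 : (Q j - Polynomial.C ((Q j).coeff 0)).coeff l = (Q j).coeff l := by
      rw [Polynomial.coeff_sub, Polynomial.coeff_C, if_neg (by omega), sub_zero]
    rw [e1]
    rcases Nat.lt_or_ge (d j) l with hlt | hle
    · rw [Polynomial.coeff_eq_zero_of_natDegree_lt (by rw [hQd]; exact hlt), Int.natAbs_zero, zero_mul]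
      exact Nat.zero_le _
    · have h1 := hQc j l hl
      have hHl : (0 : ℝ) < (H : ℝ) ^ l := by
        have : (0 : ℝ) < H := by exact_mod_cast hH1
        positivity
      have h2 : |((Q j).coeff l : ℝ)| ≤ L ^ K * (H : ℝ) ^ (d j - l) := by
        have e2 : (H : ℝ) ^ d j = (H : ℝ) ^ (d j - l) * (H : ℝ) ^ l := by
          rw [← pow_add, Nat.sub_add_cancel hle]
        rw [e2, ← mul_assoc] at h1
        exact le_of_mul_le_mul_right h1 hHl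
      have h3 : L ^ K ≤ R := (pow_le_pow_right₀ hL1 (by omega)).trans hR1
      have h4 : (((((Q j).coeff l).natAbs * (H + 1) ^ l : ℕ)) : ℝ) ≤ ((R * (H + 1) ^ d j : ℕ) : ℝ) := by
        push_cast
        rw [Nat.cast_natAbs, Int.cast_abs]
        have e3 : ((H : ℝ) + 1) ^ d j = ((H : ℝ) + 1) ^ (d j - l) * ((H : ℝ) + 1) ^ l := by
          rw [← pow_add, Nat.sub_add_cancel hle]
        rw [e3, ← mul_assoc]
        refine mul_le_mul_of_nonneg_right (h2.trans ?_) (by positivity)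
        exact mul_le_mul h3 (pow_le_pow_left₀ (Nat.cast_nonneg _) (by linarith) _) (by positivity) (by positivity)
      exact_mod_cast h4
  have hff : ∀ n ∈ Icc 1 (2 * x), ‖G k n‖ ≤ L ^ 2 := by
    intro n hn
    rw [mem_Icc] at hn
    rw [hGk, Complex.norm_real, Real.norm_eq_abs]
    unfold ff
    have hLL : L ≤ L ^ 2 := by nlinarith
    have e1 := lp_le_sq hL hn.2
    have e2 := (nuz_le (zA A x) n).trans (hDZ.trans hLL)
    have e3 := lp_nonneg n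
    have e4 := nuz_nonneg (zA A x) n
    rw [abs_le]
    constructor <;> linarith
  have hK0 : 0 < L ^ K := by positivity
  have h20 : 0 < L ^ 2 := by positivity
  obtain ⟨E, hE⟩ : ∃ E : Fin m → ℝ, E = fun i => if i = k then L ^ 2 else L ^ K := ⟨_, rfl⟩
  have hEk : E k = L ^ 2 := by rw [hE]; simp
  have hE0 : ∀ i, 0 < E i := by
    intro i
    rw [hE]
    dsimp only
    split_ifs <;> assumption
  have hEle : ∀ i, E i ≤ L ^ (K + 2) := by
    intro i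
    rw [hE]
    dsimp only
    split_ifs
    · exact pow_le_pow_right₀ hL1 (by omega)
    · exact pow_le_pow_right₀ hL1 (by omega)
  have hgb : ∀ i, Bd (cgc x ((Q i).coeff 0).toNat (E i) (G i)) := by
    intro i
    refine bd_cgc (hE0 i) ?_
    by_cases hik : i = k
    · subst hik
      rw [hEk]
      exact hff
    · rw [hE]
      dsimp only
      rw [if_neg hik]
      exact hGb i
  have hgk : cgc x ((Q k).coeff 0).toNat (E k) (G k) = EZ A x ((Q k).coeff 0).toNat := by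
    rw [hEk]
    exact EZ_eq' hGk
  have hmain := hC R (H + 1) (2 ^ D * x) hRge (hRH.trans (Nat.le_succ _)) hHX
    (fun j => Q j - Polynomial.C ((Q j).coeff 0)) hFam
    (fun j => by rw [Polynomial.coeff_sub, Polynomial.coeff_C_zero, sub_self])
    (PairMsAux.cw x (L ^ K) w) (bd_cw hK0 hw) (fun n hn => cw_zero' hxX n hn)
    (fun i => cgc x ((Q i).coeff 0).toNat (E i) (G i)) hgb k
    (fun n hn => cgc_zero (hux k) hxX n hn)
    (by
      have h9 := winm (v := ((Q k).coeff 0).toNat) hWBA hL hR0 hRC hRx hx (hH k).1 (hHX k)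
      rw [← hgk] at h9
      exact h9)
  have hN : L ^ K * ∏ i, E i ≤ L ^ (K + (K + 2) * m) := by
    rw [pow_add]
    refine mul_le_mul_of_nonneg_left ?_ hK0.le
    calc ∏ i, E i ≤ ∏ _i : Fin m, L ^ (K + 2) := Finset.prod_le_prod (fun i _ => (hE0 i).le) (fun i _ => hEle i)
      _ = L ^ ((K + 2) * m) := by
          rw [Finset.prod_const, Finset.card_univ, Fintype.card_fin, ← pow_mul]
  have hN0 : 0 < L ^ K * ∏ i, E i := mul_pos hK0 (Finset.prod_pos fun i _ => hE0 i)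
  rw [hκ] at hR1
  rw [Finset.card_range]
  refine fin_stepm hL hN0 hN hR1 _ ?_
  refine le_trans (le_of_eq ?_) hmain
  refine Finset.sum_congr rfl fun t ht => ?_
  rw [mem_range] at ht
  congr 2
  have hα : ∀ i, (Q i - Polynomial.C ((Q i).coeff 0)).eval (t : ℤ) + (((Q i).coeff 0).toNat : ℤ) = (Q i).eval (t : ℤ) := by
    intro i
    rw [Polynomial.eval_sub, Polynomial.eval_C, Int.toNat_of_nonneg (hc0 i).1]
    ring
  rw [sum_idm hxX (fun i => by rw [hα i]; exact hQv i t (by omega))]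
  simp only [hα]

end Pool.Agent.PTP
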