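import Pool.Agent.Lib.PTP.Defs
import Pool.Agent.Lib.NLT.MsqAll

/-!
# Module Avg: from one parameter to many

PROOF: `NLT.MsqAllAux.avg` (averaging over one coordinate) with `Φ p = ‖∑ n, w n ∏ G i (n + s p i)‖^2`, `E = x^2 / L^B`.
-/

set_option autoImplicit false

open Finset Filter

namespace Pool.Agent.PTP

open Pool.Agent.HLT Pool.Agent.NLT

theorem msk_avg {r m A K B x : ℕ} (T : Fin m → Finset ℕ) (s : (Fin m → ℕ) → Fin r → ℕ) (k : Fin r) (j : Fin m)
    (h : ∀ p ∈ Fintype.piFinset T, MSk r A K B x (T j) (fun t => s (Function.update p j t)) k) :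
    MSk r A K B x (Fintype.piFinset T) s k := by
  classical
  intro w G hw hG hk
  exact MsqAllAux.avg j T (fun p => ‖∑ n ∈ Icc 1 x, w n * ∏ i, G i (n + s p i)‖ ^ 2) _
    (fun p hp => h p hp w G hw hG hk)

theorem msk_mono {τ : Type} {r A K K' B B' x : ℕ} {Ω : Finset τ} {s : τ → Fin r → ℕ} {k : Fin r}
    (h : MSk r A K' B' x Ω s k) (hK : K ≤ K') (hB : B ≤ B') (hL : 1 ≤ Real.log x) : MSk r A K B x Ω s k := by
  intro w G hw hG hk
  have hKK : Real.log x ^ K ≤ Real.log x ^ K' := pow_le_pow_right₀ hL hK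
  refine (h w G (fun n hn => (hw n hn).trans hKK) (fun i n hn => (hG i n hn).trans hKK) hk).trans ?_
  refine mul_le_mul_of_nonneg_left ?_ (Nat.cast_nonneg _)
  have hL0 : 0 < Real.log x := by linarith
  exact div_le_div_of_nonneg_left (by positivity) (by positivity) (pow_le_pow_right₀ hL hB)

end Pool.Agent.PTP
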