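import Pool.Agent.Lib.NLG.DefsC
import Pool.Agent.Lib.NLT.MsqDefs
import Pool.Agent.Lib.VN.Final

/-!
# Polynomial tuples: definitions

`MSk r A K B x Ω s k`: mean square property of the slot `k` of the parameter set `Ω` with the `r` shift maps `s`; the functions in the
other slots are arbitrary. `MSC`: all slots. `PolyS`, `SpS`: one-parameter families `σ t`, `t ∈ T`, for which the slot `k` has the mean square
property (polynomials of distinct degrees; sets with a sparse spectrum). `UBC`: the conclusions for almost all parameters.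
-/

set_option autoImplicit false

open Finset Filter Polynomial

namespace Pool.Agent.PTP

open Pool.Agent.HLB Pool.Agent.HL Pool.Agent.HLT Pool.Agent.HLU Pool.Agent.VK Pool.Agent.VN Pool.Agent.NLT Pool.Agent.NLG

/-- Mean square property of the slot `k`, with arbitrary complex functions in the other slots. -/
def MSk {τ : Type} (r A K B x : ℕ) (Ω : Finset τ) (s : τ → Fin r → ℕ) (k : Fin r) : Prop :=
  ∀ (w : ℕ → ℂ) (G : Fin r → ℕ → ℂ), (∀ n ∈ Icc 1 x, ‖w n‖ ≤ Real.log x ^ K) →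
    (∀ i, ∀ n ∈ Icc 1 (2 * x), ‖G i n‖ ≤ Real.log x ^ K) → (∀ n, G k n = (ff (zA A x) n : ℂ)) →
    ∑ t ∈ Ω, ‖∑ n ∈ Icc 1 x, w n * ∏ i, G i (n + s t i)‖ ^ 2 ≤
      (Ω.card : ℝ) * ((x : ℝ) ^ 2 / Real.log x ^ B)

/-- Mean square property of all slots. -/
def MSC {τ : Type} (r A K B x : ℕ) (Ω : Finset τ) (s : τ → Fin r → ℕ) : Prop :=
  (∀ t ∈ Ω, ∀ i, s t i ≤ x) ∧ ∀ k, MSk r A K B x Ω s k

/-- On `[0, H]` the function `f` is an integer polynomial of degree `d` whose coefficients of index `l ≥ 1` are at most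
`R H ^ (d - l)`. -/
def IsP (d H : ℕ) (R : ℝ) (f : ℕ → ℕ) : Prop :=
  ∃ Q : ℤ[X], Q.natDegree = d ∧ (∀ l : ℕ, 1 ≤ l → |(Q.coeff l : ℝ)| * (H : ℝ) ^ l ≤ R * (H : ℝ) ^ d) ∧
    ∀ t : ℕ, t ≤ H → (f t : ℤ) = Q.eval (t : ℤ)

/-- `T ⊆ [0, H]` is not too small, and all shifts are polynomials in the parameter, constant or of distinct degrees at most
`δ`; the shift `k` is not constant. -/
def PolyS {r : ℕ} (K δ : ℕ) (ε : ℝ) (x : ℕ) (T : Finset ℕ) (σ : ℕ → Fin r → ℕ) (k : Fin r) : Prop :=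
  ∃ (H : ℕ) (d : Fin r → ℕ), T ⊆ range (H + 1) ∧ (H : ℝ) + 1 ≤ Real.log x ^ K * T.card ∧ 0 < d k ∧
    (∀ i, d i ≤ δ) ∧ (∀ i i', i ≠ i' → d i = d i' → d i = 0) ∧
    (∀ i, 0 < d i → (x : ℝ) ^ (1 / 6 + ε) ≤ (H : ℝ) ^ d i ∧ H ^ d i ≤ x) ∧
    ∀ i, IsP (d i) H (Real.log x ^ K) (fun t => σ t i) ∧ ∀ t : ℕ, t ≤ H → σ t i ≤ x

/-- `T` has a sparse spectrum at the scale `D`, the shift `k` is `t + c` and the others do not depend on `t`. -/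
def SpS {r : ℕ} (b₀ : ℕ) (F : ℕ → ℕ) (ε : ℝ) (x : ℕ) (T : Finset ℕ) (σ : ℕ → Fin r → ℕ) (k : Fin r) : Prop :=
  ∃ D : ℕ, (x : ℝ) ^ (1 / 6 + ε) ≤ D ∧ D ≤ x ∧ SpB F b₀ D T ∧ (∃ c : ℤ, ∀ t ∈ T, (σ t k : ℤ) = t + c) ∧
    (∀ i, i ≠ k → ∀ t ∈ T, ∀ t' ∈ T, σ t i = σ t' i) ∧ ∀ t ∈ T, ∀ i, σ t i ≤ x

/-- Independence of arbitrary sequences and the Hardy-Littlewood formula, for almost all parameters. -/
def UBC {τ : Type} (r K A B x : ℕ) (Ω : Finset τ) (s : τ → Fin r → ℕ) : Prop :=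
  ∀ (w : ℕ → ℂ) (g : Fin r → ℕ → ℂ), (∀ n ∈ Icc 1 x, ‖w n‖ ≤ Real.log x ^ K) →
    (∀ i, ∀ n ∈ Icc 1 (2 * x), ‖g i n‖ ≤ Real.log x ^ K) → ∀ c : ℕ, c ≤ x →
    ∃ E ⊆ Ω, (E.card : ℝ) ≤ (Ω.card : ℝ) / Real.log x ^ A ∧
      ∀ t ∈ Ω, t ∉ E →
        (∀ (J : Finset (Fin r)) (y : ℕ), y ≤ x →
          ‖∑ n ∈ Icc 1 y, w n * (∏ i ∈ Jᶜ, g i (n + s t i)) *
            ((∏ i ∈ J, G0 (n + s t i) - ∏ i ∈ J, G1 (zA B x) (n + s t i) : ℝ) : ℂ)‖ ≤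
            x / Real.log x ^ A) ∧
        (Function.Injective (Fin.cons c (s t) : Fin (r + 1) → ℕ) → ∀ y : ℕ, y ≤ x →
          |(((Icc 1 y).filter
              (fun n : ℕ => ∀ i, (n + (Fin.cons c (s t) : Fin (r + 1) → ℕ) i).Prime)).card : ℝ) -
            SI (Fin.cons c (s t) : Fin (r + 1) → ℕ) *
              ∑ n ∈ Icc 2 y, hl univ (Fin.cons c (s t) : Fin (r + 1) → ℕ) n| ≤ x / Real.log x ^ A)

end Pool.Agent.PTP
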