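import Pool.Agent.Lib.PTP.Defs
import Pool.Agent.Lib.NLT.MsqW

/-!
# Module Weights: arbitrary sequences, almost all parameters

PROOF: as NLT/MsqW.lean (`gen_msq`, `weights_msq`, `weights_prime_msq`), for each `J : Finset (Fin r)` separately, with the function `g i` instead of `1` in the slots `i ∉ J` of `GJ`
(bounded by `L^K ≤ L^(K + 2)` on `[1, 2 x]`), `MSC` instead of `MSQ`; then the union of the `2^r` exceptional sets (apply the version for one `J` with `A + 1` or so and `2^r ≤ L`;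
`Finset.biUnion` over `univ : Finset (Finset (Fin r))`). In detail, for one `J`: with `a i = n + s t i`, `lp`, `nuz z`, `ff z = lp - nuz z`:
`∏_(i ∈ J) lp (a i) - ∏_(i ∈ J) nuz z (a i) = ∑_(j ∈ J) ∏_(i ∈ J) (nuz before j, ff at j, lp after j)` (`Finset.prod_sub_ordered`; `telescopeJ` in MsqW is private: copy it). Each term with `w`, `g` is a sum as in
`MSk` at the slot `j`. So `∑ t ∈ Ω ‖∑ n ∈ Icc 1 x, w n (∏_(i ∉ J) g i (n + s t i)) (pl J (s t) n - pn z J (s t) n)‖^2 ≤ |Ω| x^2 / L^B1`; the cut-off at `y` is put into `w`;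
`HLU.net_y (τ := τ)` gives the maximum over `y` outside a small exceptional set (pointwise bound of the summand: `L^K * L^(K r) * L^(2 r)`, `net_y A K'` with `K' = K + K r + 2 r`); finally `HLU.abel_log` with the finset `J`
(as in `weights_prime_msq`; `hl J`, `plhl_eq`, `pnhl_eq`: check that they hold for every finset) removes the logarithms.
-/

set_option autoImplicit false

open Finset Filter

namespace Pool.Agent.PTP

open Pool.Agent.HLB Pool.Agent.HL Pool.Agent.HLT Pool.Agent.HLU Pool.Agent.NLT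

namespace WeightsAux

/-- Outside `J` the functions `g i`; in `J` the factors before `j` are `nuz z`, the factor `j` is
`ff z` and the others are `lp`. -/
noncomputable def GJ {m : ℕ} (z : ℕ) (J : Finset (Fin m)) (g : Fin m → ℕ → ℂ) (j i : Fin m) : ℕ → ℂ :=
  if i ∈ J then (fun n => (((if i < j then nuz z else if i = j then ff z else lp) n : ℝ) : ℂ)) else g i

lemma prod_GJ {m : ℕ} (z : ℕ) (J : Finset (Fin m)) (g : Fin m → ℕ → ℂ) (j : Fin m) (hj : j ∈ J)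
    (a : Fin m → ℕ) :
    ∏ i, GJ z J g j i (a i) = (∏ i ∈ Jᶜ, g i (a i)) *
      ((ff z (a j) * (∏ i ∈ J with i < j, nuz z (a i)) * ∏ i ∈ J with j < i, lp (a i) : ℝ) : ℂ) := by
  classical
  rw [← Finset.prod_compl_mul_prod J]
  congr 1
  · refine Finset.prod_congr rfl fun i hi => ?_
    unfold GJ
    rw [if_neg (Finset.mem_compl.mp hi)]
  · have h : ∀ i ∈ J, GJ z J g j i (a i) = (((if i = j then ff z (a i) else 1) *
        (if i < j then nuz z (a i) else 1) * (if j < i then lp (a i) else 1) : ℝ) : ℂ) := by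
      intro i hi
      unfold GJ
      rw [if_pos hi]
      rcases lt_trichotomy i j with h | h | h
      · have h1 : ¬ i = j := h.ne
        have h2 : ¬ j < i := h.asymm
        simp [h, h1, h2]
      · subst h
        simp
      · have h1 : ¬ i = j := h.ne'
        have h2 : ¬ i < j := h.asymm
        simp [h, h1, h2]
    rw [Finset.prod_congr rfl h, ← Complex.ofReal_prod, Finset.prod_mul_distrib, Finset.prod_mul_distrib,
      Finset.prod_ite_eq' J j, Finset.prod_filter, Finset.prod_filter]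
    simp [hj]

lemma telescopeJ {m : ℕ} (z : ℕ) (J : Finset (Fin m)) (g : Fin m → ℕ → ℂ) (t : Fin m → ℕ) (n : ℕ) :
    (∏ i ∈ Jᶜ, g i (n + t i)) * ((pl J t n - pn z J t n : ℝ) : ℂ) = ∑ j ∈ J, ∏ i, GJ z J g j i (n + t i) := by
  have h := Finset.prod_sub_ordered J (fun i => lp (n + t i)) (fun i => ff z (n + t i))
  have h1 : ∀ i : Fin m, lp (n + t i) - ff z (n + t i) = nuz z (n + t i) := by
    intro i
    unfold ff
    ring
  simp only [h1] at h
  unfold pl pn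
  rw [Finset.sum_congr rfl (fun j hj => prod_GJ z J g j hj (fun i => n + t i)), h, ← Finset.mul_sum,
    ← Complex.ofReal_sum]
  congr 2
  ring

theorem gen_msc {τ : Type} (m K B' A : ℕ) : ∀ᶠ x : ℕ in atTop,
    ∀ (Ω : Finset τ) (s : τ → Fin m → ℕ), MSC m A (K + 2) (B' + 1) x Ω s → ∀ J : Finset (Fin m),
    ∀ (w : ℕ → ℂ) (g : Fin m → ℕ → ℂ), (∀ n ∈ Icc 1 x, ‖w n‖ ≤ Real.log x ^ K) →
    (∀ i, ∀ n ∈ Icc 1 (2 * x), ‖g i n‖ ≤ Real.log x ^ K) →
    ∑ t ∈ Ω, ‖∑ n ∈ Icc 1 x, w n * (∏ i ∈ Jᶜ, g i (n + s t i)) *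
      ((pl J (s t) n - pn (zA A x) J (s t) n : ℝ) : ℂ)‖ ^ 2 ≤ (Ω.card : ℝ) * (x ^ 2 / Real.log x ^ B') := by
  filter_upwards [DZ_inv_le A, ev_log ((m:ℝ) ^ 2 + 2), eventually_ge_atTop 1] with
    x h4 h5 hx1 Ω s hΩ J w g hw hg
  set L : ℝ := Real.log x with hL
  set z : ℕ := zA A x with hz
  have hx0 : (0:ℝ) < x := by exact_mod_cast hx1
  have hL2 : (2:ℝ) ≤ L := by
    have : (0:ℝ) ≤ (m:ℝ) ^ 2 := by positivity
    linarith
  have hL0 : (0:ℝ) < L := by linarith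
  have hL1 : (1:ℝ) ≤ L := by linarith
  have hLL : L ≤ L ^ 2 := by nlinarith
  have hK2 : L ^ 2 ≤ L ^ (K + 2) := pow_le_pow_right₀ hL1 (by omega)
  -- pointwise bounds
  have hlp : ∀ n : ℕ, n ≤ 2 * x → |lp n| ≤ L ^ 2 := by
    intro n hn
    rw [abs_of_nonneg (lp_nonneg n)]
    exact lp_le_sq hL2 hn
  have hnu : ∀ n : ℕ, |nuz z n| ≤ L ^ 2 := by
    intro n
    rw [abs_of_nonneg (nuz_nonneg z n)]
    exact (nuz_le z n).trans (h4.trans hLL)
  have hff : ∀ n : ℕ, n ≤ 2 * x → |ff z n| ≤ L ^ 2 := by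
    intro n hn
    unfold ff
    have e1 := hlp n hn
    have e2 := hnu n
    rw [abs_of_nonneg (lp_nonneg n)] at e1
    rw [abs_of_nonneg (nuz_nonneg z n)] at e2
    have e3 := lp_nonneg n
    have e4 := nuz_nonneg z n
    rw [abs_le]
    constructor <;> linarith
  have hGJ : ∀ j i : Fin m, ∀ n ∈ Icc 1 (2 * x), ‖GJ z J g j i n‖ ≤ L ^ (K + 2) := by
    intro j i n hn
    have hn' : n ≤ 2 * x := (mem_Icc.mp hn).2
    unfold GJ
    split_ifs
    · rw [Complex.norm_real, Real.norm_eq_abs]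
      exact (hnu n).trans hK2
    · rw [Complex.norm_real, Real.norm_eq_abs]
      exact (hff n hn').trans hK2
    · rw [Complex.norm_real, Real.norm_eq_abs]
      exact (hlp n hn').trans hK2
    · exact (hg i n hn).trans (pow_le_pow_right₀ hL1 (by omega))
  have hP0 : 0 ≤ (Ω.card : ℝ) := Nat.cast_nonneg _
  have keyj : ∀ j ∈ J, ∑ t ∈ Ω,
      ‖∑ n ∈ Icc 1 x, w n * ∏ i, GJ z J g j i (n + s t i)‖ ^ 2 ≤
      (Ω.card : ℝ) * (x ^ 2 / L ^ (B' + 1)) := by
    intro j hj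
    refine hΩ.2 j w (GJ z J g j) ?_ (fun i => hGJ j i) ?_
    · intro n hn
      exact (hw n hn).trans (pow_le_pow_right₀ hL1 (by omega))
    · intro n
      unfold GJ
      simp [hj, hz]
  have hpt : ∀ t : τ,
      ‖∑ n ∈ Icc 1 x, w n * (∏ i ∈ Jᶜ, g i (n + s t i)) * ((pl J (s t) n - pn z J (s t) n : ℝ) : ℂ)‖ ^ 2 ≤
      m * ∑ j ∈ J, ‖∑ n ∈ Icc 1 x, w n * ∏ i, GJ z J g j i (n + s t i)‖ ^ 2 := by
    intro t
    have e1 : ∑ n ∈ Icc 1 x, w n * (∏ i ∈ Jᶜ, g i (n + s t i)) * ((pl J (s t) n - pn z J (s t) n : ℝ) : ℂ) =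
        ∑ j ∈ J, ∑ n ∈ Icc 1 x, w n * ∏ i, GJ z J g j i (n + s t i) := by
      rw [Finset.sum_comm]
      refine Finset.sum_congr rfl fun n _ => ?_
      rw [mul_assoc, telescopeJ, Finset.mul_sum]
    rw [e1]
    have e2 : ‖∑ j ∈ J, ∑ n ∈ Icc 1 x, w n * ∏ i, GJ z J g j i (n + s t i)‖ ^ 2 ≤
        (∑ j ∈ J, ‖∑ n ∈ Icc 1 x, w n * ∏ i, GJ z J g j i (n + s t i)‖) ^ 2 :=
      pow_le_pow_left₀ (norm_nonneg _) (norm_sum_le _ _) 2
    refine e2.trans ?_
    have e3 := sq_sum_le_card_mul_sum_sq (s := J)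
      (f := fun j => ‖∑ n ∈ Icc 1 x, w n * ∏ i, GJ z J g j i (n + s t i)‖)
    refine e3.trans ?_
    refine mul_le_mul_of_nonneg_right ?_ (Finset.sum_nonneg fun j _ => by positivity)
    have : J.card ≤ m := by
      have := Finset.card_le_univ J
      simpa using this
    exact_mod_cast this
  have hmJ : (m:ℝ) * J.card ≤ L := by
    have h6 : (J.card : ℝ) ≤ m := by
      have := Finset.card_le_univ J
      have h7 : J.card ≤ m := by simpa using this
      exact_mod_cast h7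
    have h8 : (m:ℝ) * J.card ≤ m * m := mul_le_mul_of_nonneg_left h6 (Nat.cast_nonneg _)
    nlinarith
  have hX0 : 0 ≤ (x:ℝ) ^ 2 / L ^ (B' + 1) := by positivity
  have hLX : L * ((x:ℝ) ^ 2 / L ^ (B' + 1)) = x ^ 2 / L ^ B' := by
    rw [← mul_div_assoc, div_eq_div_iff (by positivity) (by positivity), pow_succ]
    ring
  calc ∑ t ∈ Ω, ‖∑ n ∈ Icc 1 x, w n * (∏ i ∈ Jᶜ, g i (n + s t i)) * ((pl J (s t) n - pn z J (s t) n : ℝ) : ℂ)‖ ^ 2
      ≤ ∑ t ∈ Ω,
          m * ∑ j ∈ J, ‖∑ n ∈ Icc 1 x, w n * ∏ i, GJ z J g j i (n + s t i)‖ ^ 2 :=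
        Finset.sum_le_sum fun t _ => hpt t
    _ = m * ∑ j ∈ J, ∑ t ∈ Ω,
          ‖∑ n ∈ Icc 1 x, w n * ∏ i, GJ z J g j i (n + s t i)‖ ^ 2 := by
        rw [← Finset.mul_sum, Finset.sum_comm]
    _ ≤ m * ∑ _j ∈ J, ((Ω.card : ℝ) * (x ^ 2 / L ^ (B' + 1))) :=
        mul_le_mul_of_nonneg_left (Finset.sum_le_sum keyj) (Nat.cast_nonneg _)
    _ = (m * J.card) * ((Ω.card : ℝ) * (x ^ 2 / L ^ (B' + 1))) := by
        rw [Finset.sum_const, nsmul_eq_mul, mul_assoc]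
    _ ≤ L * ((Ω.card : ℝ) * (x ^ 2 / L ^ (B' + 1))) :=
        mul_le_mul_of_nonneg_right hmJ (mul_nonneg hP0 hX0)
    _ = (Ω.card : ℝ) * (x ^ 2 / L ^ B') := by
        rw [← hLX]
        ring

end WeightsAux

open WeightsAux

theorem weights_lp {τ : Type} (r K A : ℕ) : ∃ K' B : ℕ, ∀ A' : ℕ, ∀ᶠ x : ℕ in atTop,
    ∀ (Ω : Finset τ) (s : τ → Fin r → ℕ), MSC r A' K' B x Ω s → ∀ J : Finset (Fin r),
    ∀ (w : ℕ → ℂ) (g : Fin r → ℕ → ℂ), (∀ n ∈ Icc 1 x, ‖w n‖ ≤ Real.log x ^ K) →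
    (∀ i, ∀ n ∈ Icc 1 (2 * x), ‖g i n‖ ≤ Real.log x ^ K) →
    ∃ E ⊆ Ω, (E.card : ℝ) ≤ (Ω.card : ℝ) / Real.log x ^ A ∧
      ∀ t ∈ Ω, t ∉ E → ∀ y : ℕ, y ≤ x →
        ‖∑ n ∈ Icc 1 y, w n * (∏ i ∈ Jᶜ, g i (n + s t i)) * ((pl J (s t) n - pn (zA A' x) J (s t) n : ℝ) : ℂ)‖ ≤
          x / Real.log x ^ A := by
  refine ⟨K + 2, (4 * A + (K + K * r + 2 * r) + 6) + 1, fun A' => ?_⟩
  filter_upwards [gen_msc (τ := τ) r K (4 * A + (K + K * r + 2 * r) + 6) A', net_y (τ := τ) A (K + K * r + 2 * r),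
    DZ_inv_le A', ev_log 2] with x h1 h2 hD hL Ω s hΩ J w g hw hg
  have hL0 : 0 < Real.log x := by linarith
  have hL1 : 1 ≤ Real.log x := by linarith
  have hT' : ∀ t ∈ Ω, ∀ i, s t i ≤ x := hΩ.1
  refine h2 Ω
    (fun t n => w n * (∏ i ∈ Jᶜ, g i (n + s t i)) * ((pl J (s t) n - pn (zA A' x) J (s t) n : ℝ) : ℂ)) (Ω.card : ℝ)
    (Nat.cast_nonneg _) ?_ ?_
  · intro t ht n hn
    rw [norm_mul, norm_mul, pow_add, pow_add]
    have hg' : ‖∏ i ∈ Jᶜ, g i (n + s t i)‖ ≤ Real.log x ^ (K * r) := by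
      rw [norm_prod, pow_mul]
      refine (Finset.prod_le_prod (fun i _ => norm_nonneg _) (fun i _ => ?_)).trans
        (b := ∏ _i ∈ Jᶜ, Real.log x ^ K) ?_
      · apply hg
        have := hT' t ht i
        rw [mem_Icc] at hn ⊢
        omega
      · rw [Finset.prod_const]
        refine pow_le_pow_right₀ (one_le_pow₀ hL1) ?_
        have := Finset.card_le_univ Jᶜ
        rwa [Fintype.card_fin] at this
    refine mul_le_mul (mul_le_mul (hw n hn) hg' (norm_nonneg _) (by positivity)) ?_ (norm_nonneg _) (by positivity)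
    rw [Complex.norm_real, Real.norm_eq_abs]
    have h3 := pl_sub_pn_le hL hD J (s t) n (fun i _ => by
      have := hT' t ht i
      rw [mem_Icc] at hn
      omega)
    refine h3.trans (pow_le_pow_right₀ (by linarith) (Nat.mul_le_mul_left 2 ?_))
    have := Finset.card_le_univ J
    rwa [Fintype.card_fin] at this
  · intro y hy
    have h3 := h1 Ω s hΩ J (fun n => if n ≤ y then w n else 0) g (fun n hn => by
      split_ifs
      · exact hw n hn
      · rw [norm_zero]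
        positivity) hg
    refine le_trans (le_of_eq ?_) h3
    refine Finset.sum_congr rfl fun t _ => ?_
    congr 2
    simp only [ite_mul, zero_mul]
    rw [← Finset.sum_filter]
    refine Finset.sum_congr ?_ fun _ _ => rfl
    ext n
    simp only [mem_Icc, mem_filter]
    omega

theorem weights_gen {τ : Type} (r K A : ℕ) : ∃ K' B : ℕ, ∀ A' : ℕ, ∀ᶠ x : ℕ in atTop,
    ∀ (Ω : Finset τ) (s : τ → Fin r → ℕ), MSC r A' K' B x Ω s →
    ∀ (w : ℕ → ℂ) (g : Fin r → ℕ → ℂ), (∀ n ∈ Icc 1 x, ‖w n‖ ≤ Real.log x ^ K) →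
    (∀ i, ∀ n ∈ Icc 1 (2 * x), ‖g i n‖ ≤ Real.log x ^ K) →
    ∃ E ⊆ Ω, (E.card : ℝ) ≤ (Ω.card : ℝ) / Real.log x ^ A ∧
      ∀ t ∈ Ω, t ∉ E → ∀ (J : Finset (Fin r)) (y : ℕ), y ≤ x →
        ‖∑ n ∈ Icc 1 y, w n * (∏ i ∈ Jᶜ, g i (n + s t i)) *
          ((∏ i ∈ J, G0 (n + s t i) - ∏ i ∈ J, G1 (zA A' x) (n + s t i) : ℝ) : ℂ)‖ ≤
          x / Real.log x ^ A := by
  classical
  obtain ⟨K', B, hg⟩ := weights_lp (τ := τ) r K (A + r + 1)
  refine ⟨K', B, fun A' => ?_⟩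
  filter_upwards [hg A', ev_log (2 ^ (r + 2)), ev_log 2] with x h1 hLm hL2 Ω s hΩ w g hw hg
  have hL0 : 0 < Real.log x := by linarith
  have hL1 : 1 ≤ Real.log x := by linarith
  have hx0 : (0 : ℝ) ≤ x := Nat.cast_nonneg x
  have h1' := fun J : Finset (Fin r) => h1 Ω s hΩ J w g hw hg
  choose E hE hEc hE' using h1'
  refine ⟨univ.biUnion E, ?_, ?_, ?_⟩
  · intro t ht
    rw [Finset.mem_biUnion] at ht
    obtain ⟨J, _, hJ⟩ := ht
    exact hE J hJ
  · have e1 : ((univ.biUnion E).card : ℝ) ≤ ∑ J : Finset (Fin r), ((E J).card : ℝ) := by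
      exact_mod_cast Finset.card_biUnion_le
    refine e1.trans ((Finset.sum_le_sum fun J _ => hEc J).trans ?_)
    rw [Finset.sum_const, nsmul_eq_mul, Finset.card_univ, Fintype.card_finset, Fintype.card_fin]
    have e2 : ((2 ^ r : ℕ) : ℝ) ≤ Real.log x ^ (r + 1) := by
      push_cast
      calc (2 : ℝ) ^ r ≤ Real.log x ^ r := pow_le_pow_left₀ (by norm_num) hL2 r
        _ ≤ Real.log x ^ (r + 1) := pow_le_pow_right₀ hL1 (by omega)
    have e3 : (0 : ℝ) ≤ (Ω.card : ℝ) := Nat.cast_nonneg _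
    calc ((2 ^ r : ℕ) : ℝ) * ((Ω.card : ℝ) / Real.log x ^ (A + r + 1))
        ≤ Real.log x ^ (r + 1) * ((Ω.card : ℝ) / Real.log x ^ (A + r + 1)) :=
          mul_le_mul_of_nonneg_right e2 (by positivity)
      _ = (Ω.card : ℝ) / Real.log x ^ A := by
          rw [show A + r + 1 = (r + 1) + A by ring, pow_add (Real.log x) (r + 1) A, ← mul_div_assoc,
            mul_div_mul_left _ _ (by positivity)]
  · intro t ht htE J y hy
    have htJ : t ∉ E J := fun h => htE (Finset.mem_biUnion.mpr ⟨J, Finset.mem_univ J, h⟩)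
    have h2 := abel_log J (s t) (fun n => w n * (∏ i ∈ Jᶜ, g i (n + s t i)) *
        ((pl J (s t) n - pn (zA A' x) J (s t) n : ℝ) : ℂ)) 0
      (x / Real.log x ^ (A + r + 1)) x (fun y hy => by
        rw [mul_zero, sub_zero]
        exact hE' J t ht htJ y hy) y hy
    rw [zero_mul, sub_zero, norm_zero, add_zero] at h2
    have e : ∑ n ∈ Icc 1 y, w n * (∏ i ∈ Jᶜ, g i (n + s t i)) *
        ((∏ i ∈ J, G0 (n + s t i) - ∏ i ∈ J, G1 (zA A' x) (n + s t i) : ℝ) : ℂ) =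
        ∑ n ∈ Icc 1 y, w n * (∏ i ∈ Jᶜ, g i (n + s t i)) * ((pl J (s t) n - pn (zA A' x) J (s t) n : ℝ) : ℂ) *
          (hl J (s t) n : ℂ) := by
      refine Finset.sum_congr rfl fun n _ => ?_
      rw [← plhl_eq, ← pnhl_eq, ← sub_mul]
      push_cast
      ring
    rw [e]
    refine h2.trans ?_
    have h3 : (2 : ℝ) ^ (J.card + 2) ≤ Real.log x := by
      refine le_trans ?_ hLm
      refine pow_le_pow_right₀ (by norm_num) ?_
      have := Finset.card_le_univ J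
      rw [Fintype.card_fin] at this
      omega
    calc (2 : ℝ) ^ (J.card + 2) * (x / Real.log x ^ (A + r + 1))
        ≤ Real.log x * (x / Real.log x ^ (A + r + 1)) :=
          mul_le_mul_of_nonneg_right h3 (by positivity)
      _ = x / Real.log x ^ (A + r) := by
          rw [pow_succ]
          field_simp
      _ ≤ x / Real.log x ^ A := by
          refine div_le_div_of_nonneg_left hx0 (by positivity) (pow_le_pow_right₀ hL1 (by omega))

end Pool.Agent.PTP
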