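import Pool.Agent.Lib.PTP.PolyOne
import Pool.Agent.Lib.PTP.SparseOne
import Pool.Agent.Lib.PTP.Avg
import Pool.Agent.Lib.PTP.Weights
import Pool.Agent.Lib.NLT.MsqHL
import Pool.Agent.Lib.NLT.EdgeWin

/-!
# Module Final: the conclusions
-/

set_option autoImplicit false

open Finset Filter Polynomial

namespace Pool.Agent.PTP

open Pool.Agent.HLB Pool.Agent.HL Pool.Agent.HLT Pool.Agent.HLU Pool.Agent.VK Pool.Agent.VN Pool.Agent.NLT Pool.Agent.NLG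

theorem msq_of_msc {τ : Type} {r A K B x : ℕ} {Ω : Finset τ} {s : τ → Fin r → ℕ} (h : MSC r A K B x Ω s) :
    MSQ r A K B x Ω s := by
  refine ⟨h.1, fun j w G hw hG hj => ?_⟩
  exact h.2 j w (fun i n => (G i n : ℂ)) hw (fun i n hn => by
    rw [Complex.norm_real, Real.norm_eq_abs]
    exact hG i n hn) (fun n => by rw [hj])

theorem msc_mono {τ : Type} {r A K K' B B' x : ℕ} {Ω : Finset τ} {s : τ → Fin r → ℕ}
    (h : MSC r A K' B' x Ω s) (hK : K ≤ K') (hB : B ≤ B') (hL : 1 ≤ Real.log x) : MSC r A K B x Ω s :=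
  ⟨h.1, fun k => msk_mono (h.2 k) hK hB hL⟩

theorem ubc_of_msc {τ : Type} (r K A : ℕ) : ∃ K' B A0 : ℕ, ∀ A' : ℕ, A0 ≤ A' → ∀ᶠ x : ℕ in atTop,
    ∀ (Ω : Finset τ) (s : τ → Fin r → ℕ), MSC r A' K' B x Ω s → UBC r K A A' x Ω s := by
  classical
  obtain ⟨K1, B1, h1⟩ := weights_gen (τ := τ) r K (A + 1)
  obtain ⟨K2, B2, A0, h2⟩ := univ_msq (τ := τ) r K (A + 1)
  refine ⟨max K1 K2, max B1 B2, A0, fun A' hA' => ?_⟩
  filter_upwards [h1 A', h2 A' hA', ev_log 2] with x h1 h2 hL Ω s hΩ w g hw hg c hc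
  have hL1 : 1 ≤ Real.log x := by linarith
  have hL0 : 0 < Real.log x := by linarith
  obtain ⟨E1, a1, a2, a3⟩ := h1 Ω s (msc_mono hΩ (le_max_left _ _) (le_max_left _ _) hL1) w g hw hg
  obtain ⟨E2, b1, b2, b3⟩ := h2 Ω s (msq_of_msc (msc_mono hΩ (le_max_right _ _) (le_max_right _ _) hL1)) w hw c hc
  have hP0 : (0 : ℝ) ≤ (Ω.card : ℝ) := Nat.cast_nonneg _
  have hx0 : (0 : ℝ) ≤ x := Nat.cast_nonneg x
  have hle : ∀ M : ℝ, 0 ≤ M → M / Real.log x ^ (A + 1) ≤ M / Real.log x ^ A := fun M hM =>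
    div_le_div_of_nonneg_left hM (by positivity) (pow_le_pow_right₀ hL1 (by omega))
  refine ⟨E1 ∪ E2, Finset.union_subset a1 b1, ?_, fun t ht htE => ?_⟩
  · have h3 : ((E1 ∪ E2).card : ℝ) ≤ E1.card + E2.card := by exact_mod_cast Finset.card_union_le _ _
    refine h3.trans ((add_le_add a2 b2).trans ?_)
    rw [← two_mul, pow_succ, ← mul_div_assoc, div_le_div_iff₀ (by positivity) (by positivity)]
    have h7 : 0 ≤ (Ω.card : ℝ) * Real.log x ^ A := by positivity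
    nlinarith only [h7, hL]
  · rw [Finset.mem_union, not_or] at htE
    exact ⟨fun J y hy => (a3 t ht htE.1 J y hy).trans (hle _ hx0),
      fun hinj y hy => ((b3 t ht htE.2).2 hinj y hy).trans (hle _ hx0)⟩

theorem polyS_mono {r K K' δ x : ℕ} {ε : ℝ} {T : Finset ℕ} {σ : ℕ → Fin r → ℕ} {k : Fin r} (h : PolyS K δ ε x T σ k)
    (hK : K ≤ K') (hL : 1 ≤ Real.log x) : PolyS K' δ ε x T σ k := by
  have hKK : Real.log x ^ K ≤ Real.log x ^ K' := pow_le_pow_right₀ hL hK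
  obtain ⟨H, d, h1, h2, h3, h4, h5, h6, h7⟩ := h
  refine ⟨H, d, h1, h2.trans (mul_le_mul_of_nonneg_right hKK (Nat.cast_nonneg _)), h3, h4, h5, h6, fun i => ⟨?_, (h7 i).2⟩⟩
  obtain ⟨Q, q1, q2, q3⟩ := (h7 i).1
  exact ⟨Q, q1, fun l hl => (q2 l hl).trans (mul_le_mul_of_nonneg_right hKK (by positivity)), q3⟩

/-- One parameter. -/
theorem fin_one (hG : ∀ m, GenA m) (r K A δ : ℕ) (ε : ℝ) (hε : 0 < ε) : ∃ B : ℕ, ∀ᶠ x : ℕ in atTop,
    ∀ (T : Finset ℕ) (σ : ℕ → Fin r → ℕ), (∀ t ∈ T, ∀ i, σ t i ≤ x) → (∀ k, PolyS K δ ε x T σ k) →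
    UBC r K A B x T σ := by
  obtain ⟨K', B1, A0, h1⟩ := ubc_of_msc (τ := ℕ) r K A
  obtain ⟨B', C, h2⟩ := poly_one hG r δ (max K K') B1 ε hε
  obtain ⟨A1, hA1, h3⟩ := edge_win A0 B' C (ε / 2) (by linarith)
  refine ⟨A1, ?_⟩
  filter_upwards [h1 A1 hA1, h2 A1, h3, ev_log 1] with x h1 h2 h3 hL T σ hT hσ
  refine h1 T σ ⟨hT, fun k => ?_⟩
  exact msk_mono (h2 h3 T σ k (polyS_mono (hσ k) (le_max_left _ _) hL)) (le_max_right _ _) le_rfl hL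

/-- Many parameters. -/
theorem fin_many (hG : ∀ m, GenA m) (m r K A δ : ℕ) (F : ℕ → ℕ) (ε : ℝ) (hε : 0 < ε) : ∃ b₀ B : ℕ, ∀ᶠ x : ℕ in atTop,
    ∀ (T : Fin m → Finset ℕ) (s : (Fin m → ℕ) → Fin r → ℕ), (∀ p ∈ Fintype.piFinset T, ∀ i, s p i ≤ x) →
    (∀ k, ∃ j, ∀ p ∈ Fintype.piFinset T, PolyS K δ ε x (T j) (fun t => s (Function.update p j t)) k ∨
      SpS b₀ F ε x (T j) (fun t => s (Function.update p j t)) k) →
    UBC r K A B x (Fintype.piFinset T) s := by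
  obtain ⟨K', B1, A0, h1⟩ := ubc_of_msc (τ := Fin m → ℕ) r K A
  obtain ⟨B', C, h2⟩ := poly_one hG r δ (max K K') B1 ε hε
  obtain ⟨b₀, B2, h4⟩ := sparse_one r K' B1 F ε hε
  obtain ⟨A1, hA1, h3⟩ := edge_win A0 (max B' B2) (max C 1) (ε / 2) (by linarith)
  refine ⟨b₀, A1, ?_⟩
  filter_upwards [h1 A1 hA1, h2 A1, h3, h4 A1, ev_log 1] with x h1 h2 h3 h4 hL T s hT hs
  refine h1 _ s ⟨hT, fun k => ?_⟩
  obtain ⟨j, hj⟩ := hs k
  refine msk_avg T s k j fun p hp => ?_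
  have hW1 : WBA A1 B' C (ε / 2) x := MsqAllAux.WBA_mono h3 (le_max_left _ _) (le_max_left _ _) hL
  have hW2 : WBA A1 B2 1 (ε / 2) x := MsqAllAux.WBA_mono h3 (le_max_right _ _) (le_max_right _ _) hL
  rcases hj p hp with h | h
  · exact msk_mono (h2 hW1 _ _ k (polyS_mono h (le_max_left _ _) hL)) (le_max_right _ _) le_rfl hL
  · exact h4 hW2 _ _ k h

end Pool.Agent.PTP
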