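import Pool.Agent.Lib.PTP.Defs
import Pool.Agent.Lib.NLT.PmsOne

/-!
# Module PmsG: mean square over `t` for polynomials of distinct degrees, from the inverse theorem `GenA m`

PROOF. (Compare NLT/PmsOne.lean; here `GenA` holds for EVERY modulus, so no blocks are needed.) Let `D = ∑ j, d j`, `b = D R`; for `t < H`:
`|P_i(t)| ≤ ∑_(l = 1)^(d i) |coeff l| t^l ≤ d i * R * H^(d i) ≤ b X` (`Fam`, no constant term). Suppose the bound fails. Expand the squares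
(`NLT.BlocksAux.expand` for each `t`, `F n = w n ∏_i g i (n + P_i(t))`): `H X^2 / R < ∑_(|h| ≤ X) ‖S h‖`,
`S h = ∑_(t < H) ∑_(n ∈ (0, X]) cr h w n * ∏_i cr h (g i) (n + P_i(t))`; `‖S h‖ ≤ H X`, `2 X + 1 ≤ 3 X`, so the set `P` of the `h` with
`‖S h‖ ≥ H X / (6 R)` has at least `X / (2 R)` elements. Let `M = (2 b + 2) X` (`NeZero`), `y = - b X`. For `h ∈ P`
  `TP H (fun _ => 1) P f0 f = S h / (M H)`, `f0 = bl M y (b X) (b X + X) (cr h w)`, `f i = bl M y 0 (2 b X + X) (cr h (g i))`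
(for a residue `z` with `b X < z.val ≤ b X + X` put `n = z.val - b X ∈ (0, X]`; then `z + P_i(t)` has the value `z.val + P_i(t) ∈ (0, 2 b X + X]`,
`2 b X + X < M`: `NLT.BlocksAux.val_add_int`, `sum_val`; other `z` contribute 0). So `‖TP‖ ≥ 1 / (6 R (2 b + 2)) ≥ 1 / R^k`, `k` depends on `D` only
(`2 b + 2 = 2 D R + 2 ≤ R^(D + 3)`-like, `2^n ≥ n`). `GenA m` with `R^k` in place of `R` (`Fam` is monotone in `R`) gives with `E = k C2`: for each `h ∈ P` some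
`q ≤ R^E` with `avr ‖tv J (i ↦ f j (z + q i))‖ ≥ 1 / R^E` for all `J ≥ 1` with `J R^E ≤ H^(d j)`. Fix `J = H^(d j) / R^C3`, `C3 = 2 E + 3` (natural division).
`NLT.PmsOneAux.block_le` (`N = 2 b X + X`, `F = cr h (g j)`) and Cauchy-Schwarz as in `pms_one`:
`∑_(n ∈ (y, y + N]) ‖tv J (i ↦ cr h (g j) (n + q i))‖^2 ≥ (M / (2 R^E))^2 / N ≥ X / (2 R^(2 E))` (`N ≤ M`, `M ≥ 2 X`; `1 + 2 q J ≤ M / (2 R^E)` since
`q J R^(E + 3) ≤ H^(d j) ≤ X ≤ M`). Sum over `h ∈ P`, replace `q = q_h` by a sum over `q ∈ [1, R^E]`, and use `NLT.auto_ap` (see `PmsOneAux.upper`; here only one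
window interval): `∑_(h ∈ P) ∑_(n ∈ (y, y + N]) ‖tv J (i ↦ cr h (g j) (n + q i))‖^2 ≤ 7 X D' / J^2`, `D' = X (q J)^2 / R^C` by the hypothesis on `WB` with
`W = q J` (`H^(d j) ≤ R^(C3 + 1) J ≤ R^C W`, `W ≤ R^E J ≤ H^(d j)`). So `X / (2 R) * X / (2 R^(2 E)) ≤ R^E * 7 X^2 R^(2 E) / R^C`, i.e.
`R^C ≤ 28 R^(5 E + 1)`: contradiction for `C = 5 E + C3 + k + 10`, say.
-/

set_option autoImplicit false

open Finset Filter Polynomial

namespace Pool.Agent.PTP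

open Pool.Agent.HLT Pool.Agent.NLT Pool.Agent.NLG

namespace PmsGAux

open NLT.BlocksAux NLT.PmsOneAux

variable {m : ℕ}

/-- values of the polynomials -/
lemma val_bound {d : Fin m → ℕ} {R H X : ℕ} {P : Fin m → ℤ[X]} (hP : Fam m d R H P)
    (h0 : ∀ j, (P j).coeff 0 = 0) (hX : ∀ j, H ^ d j ≤ X) (j : Fin m) {t : ℕ} (ht : t ≤ H) :
    |(P j).eval (t : ℤ)| ≤ (((∑ j, d j) * R : ℕ) : ℤ) * X := by
  have h1 : (P j).eval (t : ℤ) = ∑ i ∈ Ico 1 (d j + 1), (P j).coeff i * (t : ℤ) ^ i := by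
    rw [eval_eq_sum_range, hP.1 j, Finset.range_eq_Ico, Finset.sum_eq_sum_Ico_succ_bot (by omega), h0 j, zero_mul, zero_add]
  rw [h1]
  refine (Finset.abs_sum_le_sum_abs _ _).trans ?_
  have h2 : ∀ i ∈ Ico 1 (d j + 1), |(P j).coeff i * (t : ℤ) ^ i| ≤ ((R * X : ℕ) : ℤ) := by
    intro i hi
    rw [Finset.mem_Ico] at hi
    have h3 := hP.2 j i hi.1
    have h4 : ((P j).coeff i).natAbs * t ^ i ≤ R * X :=
      (Nat.mul_le_mul_left _ (Nat.pow_le_pow_left ht i)).trans (h3.trans (Nat.mul_le_mul_left _ (hX j)))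
    have h5 : |(P j).coeff i * (t : ℤ) ^ i| = ((((P j).coeff i).natAbs * t ^ i : ℕ) : ℤ) := by
      rw [abs_mul, abs_pow, Nat.abs_cast]
      push_cast
      rfl
    rw [h5]
    exact_mod_cast h4
  refine (Finset.sum_le_sum h2).trans ?_
  rw [Finset.sum_const, Nat.card_Ico, nsmul_eq_mul]
  have h6 : d j ≤ ∑ j, d j := Finset.single_le_sum (f := d) (fun _ _ => Nat.zero_le _) (Finset.mem_univ j)
  have h7 : (d j + 1 - 1) * (R * X) ≤ (∑ j, d j) * R * X := by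
    rw [Nat.add_sub_cancel, mul_assoc]
    exact Nat.mul_le_mul_right _ h6
  exact_mod_cast h7

/-- the summand -/
noncomputable def fs (P : Fin m → ℤ[X]) (w : ℤ → ℂ) (g : Fin m → ℤ → ℂ) (h n : ℤ) (t : ℕ) : ℂ :=
  cr h w n * ∏ i, cr h (g i) (n + (P i).eval (t : ℤ))

/-- the sum for one difference `h` -/
noncomputable def ss (P : Fin m → ℤ[X]) (H X : ℕ) (w : ℤ → ℂ) (g : Fin m → ℤ → ℂ) (h : ℤ) : ℂ :=
  ∑ n ∈ Ioc (0 : ℤ) X, ∑ t ∈ range H, fs P w g h n t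

lemma norm_prod_le_one {ι : Type} (s : Finset ι) (f : ι → ℂ) (h : ∀ i ∈ s, ‖f i‖ ≤ 1) : ‖∏ i ∈ s, f i‖ ≤ 1 := by
  rw [norm_prod]
  exact Finset.prod_le_one (fun _ _ => norm_nonneg _) h

lemma fs_norm (P : Fin m → ℤ[X]) {w : ℤ → ℂ} {g : Fin m → ℤ → ℂ} (hw : Bd w) (hg : ∀ i, Bd (g i)) (h n : ℤ) (t : ℕ) :
    ‖fs P w g h n t‖ ≤ 1 := by
  unfold fs
  rw [norm_mul]
  exact mul_le_one₀ (cr_norm hw _ _) (norm_nonneg _) (norm_prod_le_one _ _ fun i _ => cr_norm (hg i) _ _)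

lemma ss_norm (P : Fin m → ℤ[X]) (H X : ℕ) {w : ℤ → ℂ} {g : Fin m → ℤ → ℂ} (hw : Bd w) (hg : ∀ i, Bd (g i)) (h : ℤ) :
    ‖ss P H X w g h‖ ≤ (H : ℝ) * X := by
  unfold ss
  refine (norm_sum_le _ _).trans ?_
  have h1 : ∀ n ∈ Ioc (0 : ℤ) X, ‖∑ t ∈ range H, fs P w g h n t‖ ≤ (H : ℝ) := by
    intro n _
    refine (norm_sum_le _ _).trans ?_
    calc ∑ t ∈ range H, ‖fs P w g h n t‖ ≤ ∑ _t ∈ range H, (1 : ℝ) :=
          Finset.sum_le_sum fun t _ => fs_norm P hw hg _ _ _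
      _ = H := by simp
  refine (Finset.sum_le_sum h1).trans ?_
  rw [Finset.sum_const, nsmul_eq_mul, Int.card_Ioc, sub_zero, Int.toNat_natCast, mul_comm]

lemma total (P : Fin m → ℤ[X]) (H X : ℕ) {w : ℤ → ℂ} (g : Fin m → ℤ → ℂ)
    (hw : ∀ n : ℤ, ¬ (0 < n ∧ n ≤ X) → w n = 0) :
    ∑ h ∈ Icc (-(X : ℤ)) X, ss P H X w g h =
      ((∑ t ∈ range H, ‖∑ n ∈ Ioc (0 : ℤ) X, w n * ∏ i, g i (n + (P i).eval (t : ℤ))‖ ^ 2 : ℝ) : ℂ) := by
  have e1 : ∀ h ∈ Icc (-(X : ℤ)) X, ss P H X w g h = ∑ t ∈ range H, ∑ n ∈ Ioc (0 : ℤ) X, fs P w g h n t :=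
    fun h _ => Finset.sum_comm
  rw [Finset.sum_congr rfl e1, Finset.sum_comm, Complex.ofReal_sum]
  refine Finset.sum_congr rfl fun t _ => ?_
  rw [expand (fun n => w n * ∏ i, g i (n + (P i).eval (t : ℤ)))]
  · refine Finset.sum_congr rfl fun h _ => Finset.sum_congr rfl fun n _ => ?_
    unfold fs cr
    rw [map_mul, map_prod, Finset.prod_mul_distrib]
    have e3 : ∏ i, (starRingEnd ℂ) (g i (n + (P i).eval (t : ℤ) + h)) =
        ∏ i, (starRingEnd ℂ) (g i (n + h + (P i).eval (t : ℤ))) :=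
      Finset.prod_congr rfl fun i _ => by rw [show n + (P i).eval (t : ℤ) + h = n + h + (P i).eval (t : ℤ) by ring]
    rw [e3]
    ring
  · intro n hn
    show w n * _ = 0
    rw [hw n hn, zero_mul]

/-- `TP` of the block functions -/
lemma tp_eq (P : Fin m → ℤ[X]) (H X B M : ℕ) [NeZero M] (hM : 2 * B + X < M) (hB : ∀ j, ∀ t < H, |(P j).eval (t : ℤ)| ≤ B)
    (w : ℤ → ℂ) (g : Fin m → ℤ → ℂ) (h : ℤ) :
    TP H (fun _ => 1) P (bl M (-(B : ℤ)) B (B + X) (cr h w)) (fun j => bl M (-(B : ℤ)) 0 (2 * B + X) (cr h (g j))) =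
      ss P H X w g h / (M * H) := by
  have key : ∀ t ∈ range H, ∑ x : ZMod M, bl M (-(B : ℤ)) B (B + X) (cr h w) x *
      ∏ j, bl M (-(B : ℤ)) 0 (2 * B + X) (cr h (g j)) (x + (((P j).eval (t : ℤ) : ℤ) : ZMod M)) =
      ∑ n ∈ Ioc (0 : ℤ) X, fs P w g h n t := by
    intro t ht
    rw [Finset.mem_range] at ht
    have e0 : ∑ n ∈ Ioc (0 : ℤ) X, fs P w g h n t = ∑ z ∈ Ioc (B : ℤ) ((B + X : ℕ) : ℤ), fs P w g h (-(B : ℤ) + z) t := by
      have e1 : Ioc (B : ℤ) ((B + X : ℕ) : ℤ) = (Ioc (0 : ℤ) X).map (addRightEmbedding (B : ℤ)) := by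
        rw [Finset.map_add_right_Ioc]
        push_cast
        rw [zero_add, add_comm (B : ℤ)]
      rw [e1, Finset.sum_map]
      refine Finset.sum_congr rfl fun n _ => ?_
      rw [addRightEmbedding_apply]
      congr 1
      ring
    rw [e0, ← sum_val (M := M) B (B + X) (by omega) (fun z => fs P w g h (-(B : ℤ) + z) t)]
    refine Finset.sum_congr rfl fun x _ => ?_
    by_cases hx : B < x.val ∧ x.val ≤ B + X
    · rw [if_pos hx]
      have aux : ∀ j, bl M (-(B : ℤ)) 0 (2 * B + X) (cr h (g j)) (x + (((P j).eval (t : ℤ) : ℤ) : ZMod M)) =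
          cr h (g j) (-(B : ℤ) + x.val + (P j).eval (t : ℤ)) := by
        intro j
        obtain ⟨hk1, hk2⟩ := abs_le.1 (hB j t ht)
        have hv := val_add_int x ((P j).eval (t : ℤ)) (by omega) (by omega)
        unfold bl
        rw [if_pos ⟨by omega, by omega⟩, hv]
        congr 1
        ring
      rw [Finset.prod_congr rfl fun j _ => aux j]
      unfold bl fs
      rw [if_pos hx]
    · rw [if_neg hx]
      unfold bl
      rw [if_neg hx, zero_mul]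
  unfold TP tv av ss
  rw [Finset.sum_comm]
  have e2 : ∀ t ∈ range H, (1 : ℂ) * ((∑ x : ZMod M, bl M (-(B : ℤ)) B (B + X) (cr h w) x *
      ∏ j, bl M (-(B : ℤ)) 0 (2 * B + X) (cr h (g j)) (x + (((P j).eval (t : ℤ) : ℤ) : ZMod M))) / (M : ℂ)) =
      (∑ n ∈ Ioc (0 : ℤ) X, fs P w g h n t) / (M : ℂ) := fun t ht => by rw [key t ht, one_mul]
  rw [Finset.sum_congr rfl e2, ← Finset.sum_div, div_div]

end PmsGAux


open PmsGAux NLT.PmsOneAux in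
theorem pms_gen {m : ℕ} (hG : GenA m) (d : Fin m → ℕ) (hd : StrictMono d) (hd1 : ∀ j, 1 ≤ d j) :
    ∃ C : ℕ, 1 ≤ C ∧ ∀ (R H X : ℕ), 2 ≤ R → R ^ C ≤ H → (∀ j, H ^ d j ≤ X) →
    ∀ P : Fin m → ℤ[X], Fam m d R H P → (∀ j, (P j).coeff 0 = 0) →
    ∀ w : ℤ → ℂ, Bd w → (∀ n : ℤ, ¬ (0 < n ∧ n ≤ X) → w n = 0) →
    ∀ g : Fin m → ℤ → ℂ, (∀ i, Bd (g i)) → ∀ j : Fin m, (∀ n : ℤ, 3 * (X : ℤ) < |n| → g j n = 0) →
    (∀ W : ℕ, H ^ d j ≤ R ^ C * W → W ≤ H ^ d j → WB (g j) W ((X : ℝ) * W ^ 2 / (R : ℝ) ^ C)) →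
    ∑ t ∈ range H, ‖∑ n ∈ Ioc (0 : ℤ) X, w n * ∏ i, g i (n + (P i).eval (t : ℤ))‖ ^ 2 ≤
      (H : ℝ) * X ^ 2 / R := by
  classical
  obtain ⟨C2, hC2⟩ := hG d hd hd1
  set D := ∑ j, d j with hD
  set k := D + 7 with hk
  set E := k * C2 with hE
  set C3 := 2 * E + 3 with hC3
  set C := 5 * E + C3 + k + 10 with hC
  refine ⟨C, by omega, ?_⟩
  intro R H X hR hRH hHX P hP h0 w hw hwX g hg j hgX hWB
  by_contra hcon
  push Not at hcon
  have hR1 : 1 ≤ R := by omega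
  have hRr : (2 : ℝ) ≤ R := by exact_mod_cast hR
  have hRr1 : (1 : ℝ) ≤ R := by linarith
  have hR0 : (0 : ℝ) < R := by linarith
  have hH1 : 1 ≤ H := (Nat.one_le_pow _ _ (by omega)).trans hRH
  have hHd : H ≤ H ^ d j := Nat.le_self_pow (by have := hd1 j; omega) H
  have hle : ∀ {n : ℕ}, n ≤ C → R ^ n ≤ H ^ d j := fun {n} hn => ((Nat.pow_le_pow_right hR1 hn).trans hRH).trans hHd
  have hX1 : 1 ≤ X := (hH1.trans hHd).trans (hHX j)
  have hHr : (1 : ℝ) ≤ H := by exact_mod_cast hH1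
  have hHp : (0 : ℝ) < H := by linarith
  have hXr : (1 : ℝ) ≤ X := by exact_mod_cast hX1
  have hXp : (0 : ℝ) < X := by linarith
  -- the modulus
  set B := D * R * X with hB
  set N := 2 * B + X with hN
  set M := 2 * B + 2 * X with hM
  have hNM : N < M := by omega
  have : NeZero M := ⟨by omega⟩
  have hMX : 2 * X ≤ M := by omega
  have hMr : (M : ℝ) = 2 * (D * R + 1) * X := by
    rw [hM, hB]
    push_cast
    ring
  have hM0 : (0 : ℝ) < M := by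
    rw [hMr]
    positivity
  have hBd : ∀ i, ∀ t < H, |(P i).eval (t : ℤ)| ≤ (B : ℤ) := by
    intro i t ht
    refine (val_bound hP h0 hHX i ht.le).trans (le_of_eq ?_)
    rw [hB, hD]
    push_cast
    ring
  -- many differences
  set τ : ℝ := (H : ℝ) * X / (6 * R) with hτ
  have hτ0 : 0 < τ := by positivity
  set Q : Finset ℤ := Icc (-(X : ℤ)) X with hQ
  set Pset : Finset ℤ := Q.filter (fun h => τ ≤ ‖ss P H X w g h‖) with hPset
  have hPc : (X : ℝ) / (2 * R) ≤ Pset.card := by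
    have htot := total P H X g hwX
    set S : ℝ := ∑ t ∈ range H, ‖∑ n ∈ Ioc (0 : ℤ) X, w n * ∏ i, g i (n + (P i).eval (t : ℤ))‖ ^ 2 with hS
    have hS0 : 0 ≤ S := Finset.sum_nonneg fun _ _ => by positivity
    have h1 : S ≤ ∑ h ∈ Q, ‖ss P H X w g h‖ := by
      have e1 : S = ‖(S : ℂ)‖ := by rw [Complex.norm_real, Real.norm_of_nonneg hS0]
      rw [e1, ← htot]
      exact norm_sum_le _ _
    have h2 : ∑ h ∈ Q, ‖ss P H X w g h‖ ≤ Pset.card * ((H : ℝ) * X) + Q.card * τ := by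
      rw [← Finset.sum_filter_add_sum_filter_not Q (fun h => τ ≤ ‖ss P H X w g h‖)]
      apply add_le_add
      · rw [← hPset]
        calc ∑ h ∈ Pset, ‖ss P H X w g h‖ ≤ ∑ _h ∈ Pset, ((H : ℝ) * X) :=
              Finset.sum_le_sum fun h _ => ss_norm P H X hw hg h
          _ = _ := by rw [Finset.sum_const, nsmul_eq_mul]
      · calc ∑ h ∈ Q.filter (fun h => ¬ τ ≤ ‖ss P H X w g h‖), ‖ss P H X w g h‖
            ≤ ∑ _h ∈ Q.filter (fun h => ¬ τ ≤ ‖ss P H X w g h‖), τ :=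
              Finset.sum_le_sum fun h hh => (not_le.1 (Finset.mem_filter.1 hh).2).le
          _ = ((Q.filter (fun h => ¬ τ ≤ ‖ss P H X w g h‖)).card : ℝ) * τ := by
              rw [Finset.sum_const, nsmul_eq_mul]
          _ ≤ Q.card * τ := by
              apply mul_le_mul_of_nonneg_right _ hτ0.le
              exact_mod_cast Finset.card_filter_le _ _
    have h3 : (Q.card : ℝ) ≤ 3 * X := by
      rw [hQ, Int.card_Icc]
      have e1 : ((X : ℤ) + 1 - -(X : ℤ)).toNat ≤ 3 * X := by omega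
      exact_mod_cast e1
    have h4 : (Q.card : ℝ) * τ ≤ (H : ℝ) * X * (X / (2 * R)) := by
      calc (Q.card : ℝ) * τ ≤ (3 * X) * τ := mul_le_mul_of_nonneg_right h3 hτ0.le
        _ = (H : ℝ) * X * (X / (2 * R)) := by
            rw [hτ]
            field_simp
            ring
    have h5 : (H : ℝ) * X ^ 2 / R = (H : ℝ) * X * (X / (2 * R)) + (H : ℝ) * X * (X / (2 * R)) := by
      field_simp
      ring
    have h6 : (H : ℝ) * X * (X / (2 * R)) ≤ (H : ℝ) * X * Pset.card := by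
      rw [h5] at hcon
      linarith
    exact le_of_mul_le_mul_left h6 (by positivity)
  -- the inverse theorem
  have hk2 : 2 ≤ R ^ k := hR.trans (by simpa using Nat.pow_le_pow_right hR1 (show 1 ≤ k by omega))
  have hFam : Fam m d (R ^ k) H P := by
    refine ⟨hP.1, fun i l hl => (hP.2 i l hl).trans (Nat.mul_le_mul_right _ ?_)⟩
    simpa using Nat.pow_le_pow_right hR1 (show 1 ≤ k by omega)
  set J := H ^ d j / R ^ C3 with hJ
  have hJ1 : 1 ≤ J := (Nat.one_le_div_iff (by positivity)).2 (hle (by omega))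
  have hJH : J * R ^ C3 ≤ H ^ d j := Nat.div_mul_le_self _ _
  have hq : ∀ h ∈ Pset, ∃ q : ℕ, 1 ≤ q ∧ q ≤ R ^ E ∧ 1 / (R : ℝ) ^ E ≤
      avr (fun x : ZMod M => ‖tv J (fun i => bl M (-(B : ℤ)) 0 N (cr h (g j)) (x + ((q * i : ℕ) : ZMod M)))‖) := by
    intro h hh
    have hh' := (Finset.mem_filter.1 hh).2
    have hTP : 1 / ((R ^ k : ℕ) : ℝ) ≤ ‖TP H (fun _ => 1) P (bl M (-(B : ℤ)) B (B + X) (cr h w))
        (fun j => bl M (-(B : ℤ)) 0 N (cr h (g j)))‖ := by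
      rw [tp_eq P H X B M hNM hBd w g h, norm_div, norm_mul, Complex.norm_natCast, Complex.norm_natCast,
        le_div_iff₀ (by positivity)]
      refine le_trans ?_ hh'
      rw [hτ, hMr]
      have hpow : 12 * (R : ℝ) * (D * R + 1) ≤ (R : ℝ) ^ k := by
        have e1 : (D : ℝ) + 1 ≤ (R : ℝ) ^ (D + 1) := by
          have : D + 1 < 2 ^ (D + 1) := Nat.lt_two_pow_self
          calc (D : ℝ) + 1 ≤ (2 : ℝ) ^ (D + 1) := by exact_mod_cast this.le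
            _ ≤ (R : ℝ) ^ (D + 1) := pow_le_pow_left₀ (by norm_num) hRr _
        have e2 : (12 : ℝ) ≤ (R : ℝ) ^ 4 := by
          calc (12 : ℝ) ≤ 2 ^ 4 := by norm_num
            _ ≤ (R : ℝ) ^ 4 := pow_le_pow_left₀ (by norm_num) hRr _
        have e3 : (D : ℝ) * R + 1 ≤ (D + 1) * R := by nlinarith
        calc 12 * (R : ℝ) * (D * R + 1) ≤ 12 * (R : ℝ) * ((D + 1) * R) :=
              mul_le_mul_of_nonneg_left e3 (by positivity)
          _ = 12 * ((D : ℝ) + 1) * (R : ℝ) ^ 2 := by ring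
          _ ≤ (R : ℝ) ^ 4 * (R : ℝ) ^ (D + 1) * (R : ℝ) ^ 2 := by
              apply mul_le_mul_of_nonneg_right _ (by positivity)
              exact mul_le_mul e2 e1 (by positivity) (by positivity)
          _ = (R : ℝ) ^ k := by
              rw [hk]
              ring
      push_cast
      calc 1 / (R : ℝ) ^ k * (2 * (D * R + 1) * X * H) ≤ 1 / (12 * (R : ℝ) * (D * R + 1)) * (2 * (D * R + 1) * X * H) := by
            apply mul_le_mul_of_nonneg_right _ (by positivity)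
            exact one_div_le_one_div_of_le (by positivity) hpow
        _ = (H : ℝ) * X / (6 * R) := by
            field_simp
            ring
    obtain ⟨q, hq1, hq2, hq3⟩ := hC2 M H (R ^ k) hk2 (by rw [← pow_mul]; exact (Nat.pow_le_pow_right hR1 (by omega)).trans hRH)
      P hFam (bl M (-(B : ℤ)) B (B + X) (cr h w)) (bl_Bd _ _ _ _ _ (cr_Bd _ _ hw))
      (fun j => bl M (-(B : ℤ)) 0 N (cr h (g j))) (fun i => bl_Bd _ _ _ _ _ (cr_Bd _ _ (hg i))) hTP j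
    rw [← pow_mul] at hq2 hq3
    refine ⟨q, hq1, hq2, ?_⟩
    have h2 := hq3 J hJ1 (le_trans (Nat.mul_le_mul_left J (Nat.pow_le_pow_right hR1 (by omega))) hJH)
    rw [Nat.cast_pow, ← pow_mul] at h2
    exact h2
  choose! qf hq1 hq2 hq3 using hq
  -- the lower bound
  have hlow : ∀ h ∈ Pset, (X : ℝ) / (2 * (R : ℝ) ^ (2 * E)) ≤
      ∑ n ∈ Ioc (-(B : ℤ)) (-(B : ℤ) + (N : ℕ)), ‖tv J (fun i => cr h (g j) (n + qf h * i))‖ ^ 2 := by
    intro h hh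
    have h1 := hq3 h hh
    unfold avr at h1
    rw [le_div_iff₀ hM0] at h1
    have h2 := block_le (M := M) (-(B : ℤ)) N (qf h) J (hq1 h hh) hNM (cr h (g j)) (cr_Bd _ _ (hg j))
    have h3 : 1 + 2 * ((qf h * J : ℕ) : ℝ) ≤ (M : ℝ) / (2 * (R : ℝ) ^ E) := by
      have e1 : 1 + 2 * ((qf h * J : ℕ) : ℝ) ≤ 3 * ((qf h * J : ℕ) : ℝ) := by
        have : 1 ≤ qf h * J := Nat.mul_pos (hq1 h hh) hJ1
        have : (1 : ℝ) ≤ ((qf h * J : ℕ) : ℝ) := by exact_mod_cast this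
        linarith
      refine e1.trans ?_
      rw [le_div_iff₀ (by positivity)]
      have e2 : qf h * J * R ^ (E + 3) ≤ H ^ d j := by
        calc qf h * J * R ^ (E + 3) ≤ R ^ E * J * R ^ (E + 3) := by
              gcongr
              exact hq2 h hh
          _ = J * R ^ C3 := by
              rw [hC3, show 2 * E + 3 = E + (E + 3) by ring, pow_add R E (E + 3)]
              ring
          _ ≤ H ^ d j := hJH
      have e3 : ((qf h * J : ℕ) : ℝ) * (R : ℝ) ^ (E + 3) ≤ X := by exact_mod_cast e2.trans (hHX j)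
      have e4 : (8 : ℝ) ≤ (R : ℝ) ^ 3 := by
        calc (8 : ℝ) = 2 ^ 3 := by norm_num
          _ ≤ (R : ℝ) ^ 3 := pow_le_pow_left₀ (by norm_num) hRr 3
      have e5 : (X : ℝ) ≤ M := by exact_mod_cast (show X ≤ M by omega)
      have e6 : (0 : ℝ) ≤ ((qf h * J : ℕ) : ℝ) * (R : ℝ) ^ E := by positivity
      calc 3 * ((qf h * J : ℕ) : ℝ) * (2 * (R : ℝ) ^ E) = 6 * (((qf h * J : ℕ) : ℝ) * (R : ℝ) ^ E) := by ring
        _ ≤ (R : ℝ) ^ 3 * (((qf h * J : ℕ) : ℝ) * (R : ℝ) ^ E) :=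
            mul_le_mul_of_nonneg_right (by linarith) e6
        _ = ((qf h * J : ℕ) : ℝ) * (R : ℝ) ^ (E + 3) := by ring
        _ ≤ M := e3.trans e5
    have h4 : (M : ℝ) / (2 * (R : ℝ) ^ E) ≤
        ∑ n ∈ Ioc (-(B : ℤ)) (-(B : ℤ) + (N : ℕ)), ‖tv J (fun i => cr h (g j) (n + qf h * i))‖ := by
      have e1 : 1 / (R : ℝ) ^ E * M = (M : ℝ) / (2 * (R : ℝ) ^ E) + (M : ℝ) / (2 * (R : ℝ) ^ E) := by
        field_simp
        ring
      linarith
    have h5 := sq_sum_le_card_mul_sum_sq (s := Ioc (-(B : ℤ)) (-(B : ℤ) + (N : ℕ)))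
      (f := fun n => ‖tv J (fun i => cr h (g j) (n + qf h * i))‖)
    rw [Int.card_Ioc, show (-(B : ℤ) + (N : ℕ) - -(B : ℤ)).toNat = N by omega] at h5
    have h6 : ((M : ℝ) / (2 * (R : ℝ) ^ E)) ^ 2 ≤ (M : ℝ) *
        ∑ n ∈ Ioc (-(B : ℤ)) (-(B : ℤ) + (N : ℕ)), ‖tv J (fun i => cr h (g j) (n + qf h * i))‖ ^ 2 := by
      refine (pow_le_pow_left₀ (by positivity) h4 2).trans (h5.trans ?_)
      refine mul_le_mul_of_nonneg_right ?_ (Finset.sum_nonneg fun _ _ => by positivity)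
      exact_mod_cast hNM.le
    have h7 : (M : ℝ) * ((X : ℝ) / (2 * (R : ℝ) ^ (2 * E))) ≤ ((M : ℝ) / (2 * (R : ℝ) ^ E)) ^ 2 := by
      have e1 : ((M : ℝ) / (2 * (R : ℝ) ^ E)) ^ 2 = (M : ℝ) * ((M : ℝ) / 2 / (2 * (R : ℝ) ^ (2 * E))) := by
        rw [div_pow, mul_pow, ← pow_mul, mul_comm E 2]
        field_simp
      rw [e1]
      refine mul_le_mul_of_nonneg_left ?_ hM0.le
      refine div_le_div_of_nonneg_right ?_ (by positivity)
      rw [le_div_iff₀ (by norm_num)]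
      have e2 : ((2 * X : ℕ) : ℝ) ≤ M := by exact_mod_cast hMX
      push_cast at e2
      linarith
    exact le_of_mul_le_mul_left (h7.trans h6) hM0
  -- the upper bound
  have hup : ∀ q ∈ Icc 1 (R ^ E), ∑ h ∈ Pset, ∑ n ∈ Ioc (-(B : ℤ)) (-(B : ℤ) + (N : ℕ)),
      ‖tv J (fun i => cr h (g j) (n + q * i))‖ ^ 2 ≤ 7 * (X : ℝ) ^ 2 * (R : ℝ) ^ (2 * E) / (R : ℝ) ^ C := by
    intro q hq
    rw [Finset.mem_Icc] at hq
    have hqJ1 : H ^ d j ≤ R ^ C * (q * J) := by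
      have e1 : H ^ d j < R ^ C3 * (J + 1) := Nat.lt_mul_div_succ (H ^ d j) (by positivity)
      have e2 : R ^ C3 * (J + 1) ≤ R ^ C3 * (R * J) := Nat.mul_le_mul_left _ (by nlinarith)
      have e3 : R ^ C3 * (R * J) = R ^ (C3 + 1) * J := by ring
      have e4 : R ^ (C3 + 1) * J ≤ R ^ C * (q * J) :=
        Nat.mul_le_mul (Nat.pow_le_pow_right hR1 (by omega)) (Nat.le_mul_of_pos_left _ (by omega))
      omega
    have hqJ2 : q * J ≤ H ^ d j := by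
      have e1 : q * J ≤ J * R ^ C3 := by
        rw [mul_comm]
        exact Nat.mul_le_mul_left J (hq.2.trans (Nat.pow_le_pow_right hR1 (by omega)))
      omega
    have hW := hWB (q * J) hqJ1 hqJ2
    have h3 := auto_ap (g j) (3 * X) (by
      intro n hn
      refine hgX n ?_
      push_cast at hn
      exact hn) q J hq.1 _ hW Pset (Ioc (-(B : ℤ)) (-(B : ℤ) + (N : ℕ)))
    have h4 : ∑ n ∈ Icc (-((3 * X : ℕ) : ℤ)) ((3 * X : ℕ) : ℤ), ‖g j n‖ ^ 2 ≤ 7 * X := by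
      calc ∑ n ∈ Icc (-((3 * X : ℕ) : ℤ)) ((3 * X : ℕ) : ℤ), ‖g j n‖ ^ 2
          ≤ ∑ _n ∈ Icc (-((3 * X : ℕ) : ℤ)) ((3 * X : ℕ) : ℤ), (1 : ℝ) := by
            refine Finset.sum_le_sum fun n _ => ?_
            exact pow_le_one₀ (norm_nonneg _) (hg j n)
        _ ≤ 7 * X := by
            rw [Finset.sum_const, nsmul_eq_mul, mul_one, Int.card_Icc]
            have : (((3 * X : ℕ) : ℤ) + 1 - -((3 * X : ℕ) : ℤ)).toNat ≤ 7 * X := by omega
            exact_mod_cast this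
    have hJ0 : (0 : ℝ) < J := by exact_mod_cast hJ1
    have h5 : ∀ (h n : ℤ), ‖tv J (fun i => cr h (g j) (n + q * i))‖ ^ 2 =
        ‖∑ i ∈ range J, cr h (g j) (n + q * i)‖ ^ 2 / (J : ℝ) ^ 2 := by
      intro h n
      unfold tv
      rw [norm_div, Complex.norm_natCast, div_pow]
    simp only [h5]
    simp only [← Finset.sum_div]
    rw [div_le_iff₀ (by positivity)]
    have hD0 : (0 : ℝ) ≤ (X : ℝ) * ((q * J : ℕ) : ℝ) ^ 2 / (R : ℝ) ^ C := by positivity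
    refine h3.trans ((mul_le_mul_of_nonneg_right h4 hD0).trans ?_)
    have hqr : (q : ℝ) ^ 2 ≤ (R : ℝ) ^ (2 * E) := by
      rw [mul_comm 2 E, pow_mul]
      refine pow_le_pow_left₀ (Nat.cast_nonneg q) ?_ 2
      exact_mod_cast hq.2
    have e1 : 7 * (X : ℝ) * ((X : ℝ) * ((q * J : ℕ) : ℝ) ^ 2 / (R : ℝ) ^ C) =
        7 * (X : ℝ) ^ 2 * (q : ℝ) ^ 2 / (R : ℝ) ^ C * (J : ℝ) ^ 2 := by
      push_cast
      ring
    rw [e1]
    refine mul_le_mul_of_nonneg_right ?_ (by positivity)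
    refine div_le_div_of_nonneg_right ?_ (by positivity)
    exact mul_le_mul_of_nonneg_left hqr (by positivity)
  -- comparison
  have hsum : (Pset.card : ℝ) * ((X : ℝ) / (2 * (R : ℝ) ^ (2 * E))) ≤ (R : ℝ) ^ E *
      (7 * (X : ℝ) ^ 2 * (R : ℝ) ^ (2 * E) / (R : ℝ) ^ C) := by
    calc (Pset.card : ℝ) * ((X : ℝ) / (2 * (R : ℝ) ^ (2 * E)))
        = ∑ _h ∈ Pset, ((X : ℝ) / (2 * (R : ℝ) ^ (2 * E))) := by rw [Finset.sum_const, nsmul_eq_mul]
      _ ≤ ∑ h ∈ Pset, ∑ n ∈ Ioc (-(B : ℤ)) (-(B : ℤ) + (N : ℕ)), ‖tv J (fun i => cr h (g j) (n + qf h * i))‖ ^ 2 :=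
          Finset.sum_le_sum hlow
      _ ≤ ∑ h ∈ Pset, ∑ q ∈ Icc 1 (R ^ E), ∑ n ∈ Ioc (-(B : ℤ)) (-(B : ℤ) + (N : ℕ)),
            ‖tv J (fun i => cr h (g j) (n + q * i))‖ ^ 2 := by
          refine Finset.sum_le_sum fun h hh => ?_
          exact Finset.single_le_sum (f := fun q : ℕ => ∑ n ∈ Ioc (-(B : ℤ)) (-(B : ℤ) + (N : ℕ)),
            ‖tv J (fun i => cr h (g j) (n + q * i))‖ ^ 2) (fun q _ => Finset.sum_nonneg fun n _ => by positivity)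
            (Finset.mem_Icc.2 ⟨hq1 h hh, hq2 h hh⟩)
      _ = ∑ q ∈ Icc 1 (R ^ E), ∑ h ∈ Pset, ∑ n ∈ Ioc (-(B : ℤ)) (-(B : ℤ) + (N : ℕ)),
            ‖tv J (fun i => cr h (g j) (n + q * i))‖ ^ 2 := Finset.sum_comm
      _ ≤ ∑ _q ∈ Icc 1 (R ^ E), 7 * (X : ℝ) ^ 2 * (R : ℝ) ^ (2 * E) / (R : ℝ) ^ C :=
          Finset.sum_le_sum hup
      _ = _ := by
          rw [Finset.sum_const, Nat.card_Icc, nsmul_eq_mul, Nat.add_sub_cancel, Nat.cast_pow]
  have h1 : (X : ℝ) / (2 * R) * ((X : ℝ) / (2 * (R : ℝ) ^ (2 * E))) ≤ (R : ℝ) ^ E *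
      (7 * (X : ℝ) ^ 2 * (R : ℝ) ^ (2 * E) / (R : ℝ) ^ C) :=
    (mul_le_mul_of_nonneg_right hPc (by positivity)).trans hsum
  have h2 : (R : ℝ) ^ C ≤ 28 * ((R : ℝ) ^ E * (R : ℝ) ^ (2 * E) * (R : ℝ) ^ (2 * E) * R) := by
    have e1 : (0 : ℝ) < (X : ℝ) ^ 2 := by positivity
    have e2 : (X : ℝ) / (2 * R) * ((X : ℝ) / (2 * (R : ℝ) ^ (2 * E))) =
        (X : ℝ) ^ 2 * (1 / (4 * (R * (R : ℝ) ^ (2 * E)))) := by
      field_simp
      ring
    have e3 : (R : ℝ) ^ E * (7 * (X : ℝ) ^ 2 * (R : ℝ) ^ (2 * E) / (R : ℝ) ^ C) =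
        (X : ℝ) ^ 2 * (7 * ((R : ℝ) ^ E * (R : ℝ) ^ (2 * E)) / (R : ℝ) ^ C) := by
      field_simp
    rw [e2, e3] at h1
    have h3 := le_of_mul_le_mul_left h1 e1
    rw [div_le_div_iff₀ (by positivity) (by positivity), one_mul] at h3
    refine h3.trans (le_of_eq ?_)
    ring
  have h3 : 28 * ((R : ℝ) ^ E * (R : ℝ) ^ (2 * E) * (R : ℝ) ^ (2 * E) * R) < (R : ℝ) ^ C := by
    have e1 : (28 : ℝ) < (R : ℝ) ^ 5 := by
      calc (28 : ℝ) < 2 ^ 5 := by norm_num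
        _ ≤ (R : ℝ) ^ 5 := pow_le_pow_left₀ (by norm_num) hRr 5
    have e5 : (0 : ℝ) < (R : ℝ) ^ E * (R : ℝ) ^ (2 * E) * (R : ℝ) ^ (2 * E) * R := by positivity
    calc 28 * ((R : ℝ) ^ E * (R : ℝ) ^ (2 * E) * (R : ℝ) ^ (2 * E) * R)
        < (R : ℝ) ^ 5 * ((R : ℝ) ^ E * (R : ℝ) ^ (2 * E) * (R : ℝ) ^ (2 * E) * R) :=
          mul_lt_mul_of_pos_right e1 e5
      _ = (R : ℝ) ^ (5 * E + 6) := by ring
      _ ≤ (R : ℝ) ^ C := pow_le_pow_right₀ hRr1 (by omega)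
  exact absurd h2 (not_le.2 h3)

end Pool.Agent.PTP
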